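import Mathlib

/-!
Base definitions for the construction of `(q+1)`-regular graphs of large girth from the ramified
unitary group `U(3)`, in the explicit model `F_{q^3}[τ, τ⁻¹; Frob_q]` (skew Laurent polynomials).
-/

set_option linter.unusedSectionVars false

namespace GV3

open SkewMonoidAlgebra

/-- The data: `K` is a field with `q ^ 3` elements, `σ` its automorphism `a ↦ a ^ q`. -/
class GD (K : Type) [Field K] [Fintype K] where
  q : ℕ
  hq : 2 ≤ q
  card : Fintype.card K = q ^ 3
  σ : K ≃+* K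
  hσ : ∀ a, σ a = a ^ q

section

variable (K : Type) [Field K] [Fintype K] [GD K]

/-- `ℤ` (written multiplicatively) acts on `K` through powers of the Frobenius `a ↦ a ^ q`. -/
noncomputable instance instAct : MulSemiringAction (Multiplicative ℤ) K :=
  MulSemiringAction.compHom K (zpowersHom (K ≃+* K) (GD.σ (K := K)))

/-- The skew Laurent polynomial ring `K[τ, τ⁻¹]`, `τ a = a ^ q τ`. -/
abbrev Lam := SkewMonoidAlgebra K (Multiplicative ℤ)

end

variable {K : Type} [Field K] [Fintype K] [GD K]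

/-- `fr i a = a ^ (q ^ i)`, `i ∈ ℤ`. -/
noncomputable def fr (i : ℤ) : K →+* K := (((GD.σ (K := K)) ^ i : K ≃+* K) : K →+* K)

/-- the monomial `a τ ^ i`. -/
noncomputable def mon (i : ℤ) (a : K) : Lam K := single (Multiplicative.ofAdd i) a

/-- the coefficient of `τ ^ i`. -/
noncomputable def cf (X : Lam K) (i : ℤ) : K := X.coeff (Multiplicative.ofAdd i)

/-- `X` is supported in the interval `[l, u]`. -/
def Supp (X : Lam K) (l u : ℤ) : Prop := ∀ i, cf X i ≠ 0 → l ≤ i ∧ i ≤ u

theorem smul_eq_fr (i : ℤ) (a : K) : (Multiplicative.ofAdd i) • a = fr i a := rfl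

theorem fr_zero (a : K) : fr 0 a = a := by
  simp [fr]

theorem fr_one (a : K) : fr 1 a = a ^ (GD.q K) := by
  simp [fr, GD.hσ]

theorem fr_fr (i j : ℤ) (a : K) : fr i (fr j a) = fr (i + j) a := by
  simp [fr, zpow_add]

theorem fr_nat (n : ℕ) (a : K) : fr (n : ℤ) a = a ^ ((GD.q K) ^ n) := by
  induction n with
  | zero => simp [fr_zero]
  | succ n ih =>
    rw [Nat.cast_succ, add_comm, ← fr_fr, ih, fr_one, ← pow_mul, pow_succ]

theorem fr_three (a : K) : fr 3 a = a := by
  have h := fr_nat 3 a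
  rw [← GD.card (K := K), FiniteField.pow_card] at h
  exact_mod_cast h

theorem fr_add_three (i : ℤ) (a : K) : fr (i + 3) a = fr i a := by
  rw [← fr_fr, fr_three]

theorem fr_inj (i : ℤ) {a b : K} (h : fr i a = fr i b) : a = b := by
  have := congrArg (fr (-i)) h
  simpa [fr_fr, fr_zero] using this

theorem fr_eq_zero (i : ℤ) {a : K} : fr i a = 0 ↔ a = 0 := by
  constructor
  · intro h
    apply fr_inj i
    simp [h]
  · rintro rfl
    simp

/-! ### coefficients and monomials -/

theorem cf_add (X Y : Lam K) (i : ℤ) : cf (X + Y) i = cf X i + cf Y i := by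
  simp [cf]

theorem cf_sub (X Y : Lam K) (i : ℤ) : cf (X - Y) i = cf X i - cf Y i := by
  simp [cf]

theorem cf_neg (X : Lam K) (i : ℤ) : cf (-X) i = - cf X i := by
  simp [cf]

theorem cf_zero (i : ℤ) : cf (0 : Lam K) i = 0 := by
  simp [cf]

theorem cf_mon (i j : ℤ) (a : K) : cf (mon i a) j = if i = j then a else 0 := by
  classical
  simp only [cf, mon, coeff_single]
  rw [Finsupp.single_apply]
  simp

theorem cf_ext {X Y : Lam K} (h : ∀ i, cf X i = cf Y i) : X = Y := by
  apply SkewMonoidAlgebra.ext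
  intro a
  exact h (Multiplicative.toAdd a)

theorem mon_mul (i j : ℤ) (a b : K) : mon i a * mon j b = mon (i + j) (a * fr i b) := by
  simp only [mon, single_mul_single, smul_eq_fr]
  rfl

theorem one_eq : (1 : Lam K) = mon 0 1 := rfl

theorem mon_zero (i : ℤ) : mon i (0 : K) = 0 := by
  simp [mon]

theorem mon_add (i : ℤ) (a b : K) : mon i (a + b) = mon i a + mon i b := by
  simp [mon, single_add]

theorem mon_neg (i : ℤ) (a : K) : mon i (-a) = - mon i a := by
  simp [mon, single_neg]

theorem cf_mon_mul (i : ℤ) (a : K) (X : Lam K) (k : ℤ) :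
    cf (mon i a * X) k = a * fr i (cf X (k - i)) := by
  simp only [mon, cf, coeff_single_mul, smul_eq_fr]
  congr 3
  rw [← ofAdd_neg, ← ofAdd_add]
  congr 1
  ring

theorem cf_mul_mon (i : ℤ) (a : K) (X : Lam K) (k : ℤ) :
    cf (X * mon i a) k = cf X (k - i) * fr (k - i) a := by
  have : Multiplicative.ofAdd k * (Multiplicative.ofAdd i)⁻¹ = Multiplicative.ofAdd (k - i) := rfl
  simp only [mon, cf, coeff_mul_single, this, smul_eq_fr]

/-- induction principle -/
theorem lam_induction {P : Lam K → Prop} (X : Lam K) (h0 : P 0)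
    (hadd : ∀ X Y, P X → P Y → P (X + Y)) (hmon : ∀ i a, P (mon i a)) : P X := by
  induction X using SkewMonoidAlgebra.induction_on with
  | zero => exact h0
  | single g a => exact hmon (Multiplicative.toAdd g) a
  | add X Y hX hY => exact hadd X Y hX hY

/-! ### the involution -/

/-- The involution `(a τ ^ i)* = τ ^ (-i) a`. -/
noncomputable def st : Lam K →+ Lam K :=
  (Finsupp.liftAddHom fun g : Multiplicative ℤ =>
    ({ toFun := fun a => mon (-(Multiplicative.toAdd g)) (fr (-(Multiplicative.toAdd g)) a)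
       map_zero' := by simp [mon_zero]
       map_add' := by intro a b; simp [mon_add] } : K →+ Lam K)).comp
    (AddEquiv.toAddMonoidHom coeffAddEquiv)

theorem st_mon (i : ℤ) (a : K) : st (mon i a) = mon (-i) (fr (-i) a) := by
  simp [st, mon, coeffAddEquiv]

theorem st_mul (X Y : Lam K) : st (X * Y) = st Y * st X := by
  induction X using lam_induction with
  | h0 => simp
  | hadd X X' h h' => simp [add_mul, mul_add, h, h']
  | hmon i a =>
    induction Y using lam_induction with
    | h0 => simp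
    | hadd Y Y' h h' => simp [add_mul, mul_add, h, h']
    | hmon j b =>
      simp only [mon_mul, st_mon, map_mul, fr_fr]
      congr 1
      · ring
      · rw [mul_comm]
        congr 2
        · ring
        · ring

theorem st_st (X : Lam K) : st (st X) = X := by
  induction X using lam_induction with
  | h0 => simp
  | hadd X X' h h' => simp [h, h']
  | hmon i a =>
    simp only [st_mon, fr_fr]
    congr 1
    · ring
    · have : (- -i + -i : ℤ) = 0 := by ring
      rw [this, fr_zero]

theorem cf_st (X : Lam K) (i : ℤ) : cf (st X) i = fr i (cf X (-i)) := by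
  induction X using lam_induction with
  | h0 => simp [cf_zero]
  | hadd X X' h h' => simp [cf_add, h, h']
  | hmon j a =>
    rw [st_mon, cf_mon, cf_mon]
    by_cases h : j = -i
    · subst h
      simp
    · have : ¬ (-j = i) := by omega
      simp [h, this]

/-! ### the action on `K` -/

/-- `a • y = a y`. -/
noncomputable def actK : K →+* AddMonoid.End K where
  toFun a := ({ toFun := fun w => a * w
                map_zero' := by simp
                map_add' := by intro u w; simp [mul_add] } : K →+ K)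
  map_one' := by
    apply AddMonoidHom.ext
    intro w
    show (1 : K) * w = w
    simp
  map_mul' a b := by
    apply AddMonoidHom.ext
    intro w
    show (a * b) * w = a * (b * w)
    rw [mul_assoc]
  map_zero' := by
    apply AddMonoidHom.ext
    intro w
    show (0 : K) * w = 0
    simp
  map_add' a b := by
    apply AddMonoidHom.ext
    intro w
    show (a + b) * w = a * w + b * w
    ring

/-- `τ y = y ^ q`. -/
noncomputable def tauS : AddMonoid.End K := ((fr 1 : K →+* K) : K →+ K)

/-- `τ⁻¹ y`. -/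
noncomputable def tauSi : AddMonoid.End K := ((fr (-1) : K →+* K) : K →+ K)

theorem actK_apply (a w : K) : actK a w = a * w := rfl

theorem tauS_apply (w : K) : tauS w = fr 1 w := rfl

theorem tauSi_apply (w : K) : tauSi w = fr (-1) w := rfl

theorem tauS_tauSi : (tauS * tauSi : AddMonoid.End K) = 1 := by
  apply AddMonoidHom.ext
  intro w
  show tauS (tauSi w) = w
  rw [tauS_apply, tauSi_apply, fr_fr, show (1 : ℤ) + -1 = 0 from rfl, fr_zero]

theorem tauSi_tauS : (tauSi * tauS : AddMonoid.End K) = 1 := by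
  apply AddMonoidHom.ext
  intro w
  show tauSi (tauS w) = w
  rw [tauS_apply, tauSi_apply, fr_fr, show (-1 : ℤ) + 1 = 0 from rfl, fr_zero]

/-- `τ` as a unit. -/
noncomputable def tauSU : (AddMonoid.End K)ˣ := ⟨tauS, tauSi, tauS_tauSi, tauSi_tauS⟩

theorem tauS_actK (a : K) :
    (tauS * actK a : AddMonoid.End K) = actK (fr 1 a) * tauS := by
  apply AddMonoidHom.ext
  intro w
  show tauS (actK a w) = actK (fr 1 a) (tauS w)
  rw [tauS_apply, tauS_apply, actK_apply, actK_apply, map_mul]

theorem semiconj_aux (U : (AddMonoid.End K)ˣ) (hU : (U : AddMonoid.End K) = tauS)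
    (i : ℤ) (a : K) :
    SemiconjBy ((U ^ i : (AddMonoid.End K)ˣ) : AddMonoid.End K) (actK a)
      (actK (fr i a)) := by
  induction i using Int.induction_on generalizing a with
  | zero => simp [fr_zero]
  | succ n ih =>
    rw [zpow_add, zpow_one]
    have e : ((U ^ (n : ℤ) * U : (AddMonoid.End K)ˣ) : AddMonoid.End K)
        = ((U ^ (n : ℤ) : (AddMonoid.End K)ˣ) : AddMonoid.End K) * tauS := by
      rw [Units.val_mul, hU]
    rw [e]
    have h2 : SemiconjBy (tauS : AddMonoid.End K) (actK a) (actK (fr 1 a)) := tauS_actK a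
    have h3 := ih (fr 1 a)
    rw [fr_fr] at h3
    exact h3.mul_left h2
  | pred n ih =>
    rw [zpow_sub, zpow_one]
    have e : ((U ^ (-(n : ℤ)) * U⁻¹ : (AddMonoid.End K)ˣ) : AddMonoid.End K)
        = ((U ^ (-(n : ℤ)) : (AddMonoid.End K)ˣ) : AddMonoid.End K) *
          ((U⁻¹ : (AddMonoid.End K)ˣ) : AddMonoid.End K) := by
      rw [Units.val_mul]
    rw [e]
    have h2 : SemiconjBy (U : AddMonoid.End K) (actK (fr (-1) a)) (actK a) := by
      rw [hU]
      have := tauS_actK (fr (-1) a)
      rw [fr_fr, show (1 : ℤ) + -1 = 0 from rfl, fr_zero] at this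
      exact this
    have h2' := h2.units_inv_symm_left
    have h3 := ih (fr (-1) a)
    rw [fr_fr] at h3
    exact h3.mul_left h2'

/-- The action of the ring `Lam K` on `K`. -/
noncomputable def act : Lam K →+* AddMonoid.End K :=
  SkewMonoidAlgebra.liftNCRingHom (actK (K := K))
    ((Units.coeHom _).comp (zpowersHom _ (tauSU (K := K))))
    (by
      intro a g
      have := semiconj_aux (tauSU (K := K)) rfl (Multiplicative.toAdd g) a
      exact this.symm)

theorem tauSU_zpow (i : ℤ) (w : K) :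
    ((tauSU (K := K) ^ i : (AddMonoid.End K)ˣ) : AddMonoid.End K) w = fr i w := by
  induction i using Int.induction_on generalizing w with
  | zero => rw [zpow_zero, fr_zero]; rfl
  | succ n ih =>
    rw [zpow_add, zpow_one]
    show ((tauSU (K := K) ^ (n : ℤ) : (AddMonoid.End K)ˣ) : AddMonoid.End K) (fr 1 w) = _
    rw [ih, fr_fr]
  | pred n ih =>
    rw [zpow_sub, zpow_one]
    show ((tauSU (K := K) ^ (-(n : ℤ)) : (AddMonoid.End K)ˣ) : AddMonoid.End K) (fr (-1) w) = _
    rw [ih, fr_fr]
    rfl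

theorem act_mon (i : ℤ) (a : K) (w : K) : act (mon i a) w = a * fr i w := by
  have h : act (mon i a) = actK a * ((tauSU (K := K) ^ i : (AddMonoid.End K)ˣ) :
      AddMonoid.End K) := by
    simp [act, mon, liftNCRingHom]
  rw [h]
  show actK a (((tauSU (K := K) ^ i : (AddMonoid.End K)ˣ) : AddMonoid.End K) w) = _
  rw [tauSU_zpow, actK_apply]

theorem act_mul (X Y : Lam K) (w : K) : act (X * Y) w = act X (act Y w) := by
  rw [map_mul]; rfl

theorem act_add (X Y : Lam K) (w : K) : act (X + Y) w = act X w + act Y w := by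
  rw [map_add]; rfl

theorem act_sub (X Y : Lam K) (w : K) : act (X - Y) w = act X w - act Y w := by
  rw [map_sub]; rfl

theorem act_zero' (w : K) : act (0 : Lam K) w = 0 := by
  rw [map_zero]; rfl

theorem act_one (w : K) : act (1 : Lam K) w = w := by
  rw [map_one]; rfl

/-- The central element `Π = 1 - τ ^ 3`. -/
noncomputable def PI : Lam K := mon 0 1 - mon 3 1

theorem PI_comm (X : Lam K) : PI * X = X * PI := by
  induction X using lam_induction with
  | h0 => simp
  | hadd X X' h h' => simp [add_mul, mul_add, h, h']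
  | hmon i a =>
    simp only [PI, sub_mul, mul_sub, mon_mul, fr_three, map_one, fr_zero, mul_one, one_mul,
      add_zero, zero_add]
    rw [add_comm 3 i]

theorem st_PI : st (PI : Lam K) = mon 0 1 - mon (-3) 1 := by
  rw [PI, map_sub, st_mon, st_mon, map_one, map_one, neg_zero]

theorem act_PI (w : K) : act (PI : Lam K) w = 0 := by
  rw [PI, act_sub, act_mon, act_mon, fr_zero, fr_three]
  ring

theorem cf_PI (i : ℤ) : cf (PI : Lam K) i = if i = 0 then 1 else if i = 3 then -1 else 0 := by
  simp only [PI, cf_sub, cf_mon]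
  by_cases h0 : i = 0
  · subst h0; simp
  by_cases h3 : i = 3
  · subst h3; simp
  simp [h0, h3, Ne.symm h0, Ne.symm h3]

/-! ### the matrix representation -/

section rho

variable {L : Type} [Field L] (j : K →+* L) (s : L) (hs : s ≠ 0)

/-- `a ↦ diag (a, a ^ q, a ^ (q ^ 2))`. -/
noncomputable def rhoK : K →+* Matrix (Fin 3) (Fin 3) L where
  toFun a := Matrix.diagonal (fun r : Fin 3 => j (fr (r : ℕ) a))
  map_one' := by simp
  map_mul' a b := by simp
  map_zero' := by simp
  map_add' a b := by simp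

/-- the matrix of `τ`. -/
def rhoT : Matrix (Fin 3) (Fin 3) L := !![0, 1, 0; 0, 0, 1; s, 0, 0]

/-- the matrix of `τ⁻¹`. -/
def rhoTi : Matrix (Fin 3) (Fin 3) L := !![0, 0, s⁻¹; 1, 0, 0; 0, 1, 0]

include hs in
theorem rhoT_mul : rhoT s * rhoTi s = 1 := by
  ext a b; fin_cases a <;> fin_cases b <;> simp [rhoT, rhoTi, Matrix.mul_apply, Fin.sum_univ_three, hs]

include hs in
theorem rhoTi_mul : rhoTi s * rhoT s = 1 := by
  ext a b; fin_cases a <;> fin_cases b <;> simp [rhoT, rhoTi, Matrix.mul_apply, Fin.sum_univ_three, hs]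

def rhoTU : (Matrix (Fin 3) (Fin 3) L)ˣ := ⟨rhoT s, rhoTi s, rhoT_mul s hs, rhoTi_mul s hs⟩

theorem rhoT_rhoK (a : K) : rhoT s * rhoK j a = rhoK j (fr 1 a) * rhoT s := by
  have h3 : fr 2 (fr 1 a) = fr 0 a := by
    rw [fr_fr, show (2 : ℤ) + 1 = 3 from rfl, fr_three, fr_zero]
  have h2 : fr 1 (fr 1 a) = fr 2 a := by rw [fr_fr]; rfl
  have h1 : fr 0 (fr 1 a) = fr 1 a := by rw [fr_fr]; rfl
  ext r c
  fin_cases r <;> fin_cases c <;>
    simp [rhoT, rhoK, Matrix.mul_apply, Fin.sum_univ_three, Matrix.diagonal, h1, h2, h3, mul_comm]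

theorem semiconj_rho (U : (Matrix (Fin 3) (Fin 3) L)ˣ) (hU : (U : Matrix (Fin 3) (Fin 3) L) = rhoT s)
    (i : ℤ) (a : K) :
    SemiconjBy ((U ^ i : (Matrix (Fin 3) (Fin 3) L)ˣ) : Matrix (Fin 3) (Fin 3) L) (rhoK j a)
      (rhoK j (fr i a)) := by
  induction i using Int.induction_on generalizing a with
  | zero => simp [fr_zero]
  | succ n ih =>
    rw [zpow_add, zpow_one]
    have e : ((U ^ (n : ℤ) * U : (Matrix (Fin 3) (Fin 3) L)ˣ) : Matrix (Fin 3) (Fin 3) L)
        = ((U ^ (n : ℤ) : (Matrix (Fin 3) (Fin 3) L)ˣ) : Matrix (Fin 3) (Fin 3) L) * rhoT s := by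
      rw [Units.val_mul, hU]
    rw [e]
    have h2 : SemiconjBy (rhoT s) (rhoK j a) (rhoK j (fr 1 a)) := rhoT_rhoK j s a
    have h3 := ih (fr 1 a)
    rw [fr_fr] at h3
    exact h3.mul_left h2
  | pred n ih =>
    rw [zpow_sub, zpow_one]
    have e : ((U ^ (-(n : ℤ)) * U⁻¹ : (Matrix (Fin 3) (Fin 3) L)ˣ) : Matrix (Fin 3) (Fin 3) L)
        = ((U ^ (-(n : ℤ)) : (Matrix (Fin 3) (Fin 3) L)ˣ) : Matrix (Fin 3) (Fin 3) L) *
          ((U⁻¹ : (Matrix (Fin 3) (Fin 3) L)ˣ) : Matrix (Fin 3) (Fin 3) L) := by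
      rw [Units.val_mul]
    rw [e]
    have h2 : SemiconjBy (U : Matrix (Fin 3) (Fin 3) L) (rhoK j (fr (-1) a)) (rhoK j a) := by
      rw [hU]
      have := rhoT_rhoK j s (fr (-1) a)
      rw [fr_fr, show (1 : ℤ) + -1 = 0 from rfl, fr_zero] at this
      exact this
    have h2' := h2.units_inv_symm_left
    have h3 := ih (fr (-1) a)
    rw [fr_fr] at h3
    exact h3.mul_left h2'

/-- The matrix representation `Lam K → M_3(L)` at the point `s`: `τ ^ 3 = s`. -/
noncomputable def rho : Lam K →+* Matrix (Fin 3) (Fin 3) L :=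
  SkewMonoidAlgebra.liftNCRingHom (rhoK j)
    ((Units.coeHom _).comp (zpowersHom _ (rhoTU s hs)))
    (by
      intro a g
      have := semiconj_rho j s (rhoTU s hs) rfl (Multiplicative.toAdd g) a
      exact this.symm)

theorem rho_mon (i : ℤ) (a : K) : rho j s hs (mon i a) =
    rhoK j a * ((rhoTU s hs ^ i : (Matrix (Fin 3) (Fin 3) L)ˣ) : Matrix (Fin 3) (Fin 3) L) := by
  simp [rho, mon, liftNCRingHom]

end rho

/-! ### further definitions -/

/-- the norm `K → F_q`. -/
noncomputable def nrm (a : K) : K := a * fr 1 a * fr 2 a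

/-- The parameters of the steps: `N(a) = 1` and `a ^ 2 + 1 + a ^ (-2 q) = 0`. -/
structure IsA (a : K) : Prop where
  nrm_eq : nrm a = 1
  eqn : a ^ 2 + 1 + ((fr 1 a)⁻¹) ^ 2 = 0

/-- the step `N_a = a - a ^ (-q) τ`. -/
noncomputable def Nn (a : K) : Lam K := mon 0 a - mon 1 ((fr 1 a)⁻¹)

/-- the complementary step `Q_a = a⁻¹ - (a + a⁻¹) τ + a τ ^ 2`, `N_a Q_a = Q_a N_a = Π`. -/
noncomputable def Qc (a : K) : Lam K := mon 0 a⁻¹ - mon 1 (a + a⁻¹) + mon 2 a

/-- the left ideal `Lam K * Z`. -/
noncomputable def LI (Z : Lam K) : AddSubgroup (Lam K) := (AddMonoidHom.mulRight Z).range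

theorem mem_LI {Z X : Lam K} : X ∈ LI Z ↔ ∃ Q, Q * Z = X := by
  simp [LI, AddMonoidHom.mem_range]

/-- the left ideal generated by `W 0, …, W n`. -/
noncomputable def JJ (W : ℕ → Lam K) : ℕ → AddSubgroup (Lam K)
  | 0 => LI (W 0)
  | n + 1 => JJ W n ⊔ LI (W (n + 1))

/-- the products `Q_{b (i-1)} N_{a (i-1)} ⋯ Q_{b 0} N_{a 0}`. -/
noncomputable def Pd (a b : ℕ → K) : ℕ → Lam K
  | 0 => 1
  | i + 1 => Qc (b i) * Nn (a i) * Pd a b i

end GV3
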