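import Mathlib

namespace GV3

theorem Cd_inj {L : Type} [Field L] (d : L) (hd : d ≠ 0) :
    Function.Injective (fun p : {A : Matrix (Fin 3) (Fin 3) L // A.det = d} × Lˣ =>
      Matrix.diagonal (![(p.2 : L), 1, 1]) * p.1.1) := by
  have hdet : ∀ u : L, (Matrix.diagonal (![u, 1, 1])).det = u := by
    intro u
    rw [Matrix.det_diagonal, Fin.prod_univ_three]
    simp
  rintro ⟨⟨A, hA⟩, u⟩ ⟨⟨A', hA'⟩, u'⟩ h
  simp only at h
  have h1 := congrArg Matrix.det h
  rw [Matrix.det_mul, Matrix.det_mul, hdet, hdet, hA, hA'] at h1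
  have h2 : (u : L) = u' := mul_right_cancel₀ hd h1
  have h3 : u = u' := Units.ext h2
  subst h3
  have h4 : Matrix.diagonal (![((u⁻¹ : Lˣ) : L), 1, 1]) * Matrix.diagonal (![(u : L), 1, 1]) =
      (1 : Matrix (Fin 3) (Fin 3) L) := by
    rw [Matrix.diagonal_mul_diagonal, ← Matrix.diagonal_one]
    congr 1
    funext i
    fin_cases i <;> simp
  have h5 : A = A' := by
    have h6 := congrArg (fun M => Matrix.diagonal (![((u⁻¹ : Lˣ) : L), 1, 1]) * M) h
    simp only [← Matrix.mul_assoc, h4, Matrix.one_mul] at h6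
    exact h6
  subst h5
  rfl

/-- the number of `3 × 3` matrices of given nonzero determinant. -/
theorem card_det {L : Type} [Field L] [Fintype L] (d : L) (hd : d ≠ 0) :
    Nat.card {A : Matrix (Fin 3) (Fin 3) L // A.det = d} ≤ 2 * Fintype.card L ^ 8 := by
  classical
  have h1 := Nat.card_le_card_of_injective _ (Cd_inj d hd)
  rw [Nat.card_prod, Nat.card_eq_fintype_card (α := Lˣ), Fintype.card_units,
    Nat.card_eq_fintype_card (α := Matrix (Fin 3) (Fin 3) L)] at h1
  have h2 : Fintype.card (Matrix (Fin 3) (Fin 3) L) = Fintype.card L ^ 9 := by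
    have : Fintype.card (Matrix (Fin 3) (Fin 3) L) = Fintype.card (Fin 3 → Fin 3 → L) := rfl
    rw [this, Fintype.card_fun, Fintype.card_fun, Fintype.card_fin, ← pow_mul]
  rw [h2] at h1
  have hQ : 2 ≤ Fintype.card L := Fintype.one_lt_card
  set N := Nat.card {A : Matrix (Fin 3) (Fin 3) L // A.det = d} with hN
  set Q := Fintype.card L with hQd
  obtain ⟨r, hr⟩ : ∃ r, Q = r + 2 := ⟨Q - 2, by omega⟩
  have h3 : Q ≤ 2 * (Q - 1) := by omega
  have h4 : N * Q ≤ 2 * Q ^ 8 * Q := by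
    calc N * Q ≤ N * (2 * (Q - 1)) := Nat.mul_le_mul_left _ h3
      _ = 2 * (N * (Q - 1)) := by ring
      _ ≤ 2 * Q ^ 9 := Nat.mul_le_mul_left _ h1
      _ = 2 * Q ^ 8 * Q := by ring
  exact Nat.le_of_mul_le_mul_right h4 (by omega)

end GV3
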