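import Pool.Agent.H258R2.GV.Base

namespace GV3

/-- the data exist for every prime power `q`: `L` is the field with `q ^ D` elements (which
contains `K` because `3 ∣ D`), `s` a generator of its multiplicative group. -/
theorem exists_data (q : ℕ) (hq : IsPrimePow q) (D : ℕ) (h3 : 3 ∣ D) (hD : 0 < D) :
    ∃ (K : Type) (_ : Field K) (_ : Fintype K) (_ : GD K) (L : Type) (_ : Field L)
      (_ : Fintype L) (j : K →+* L) (s : L), GD.q K = q ∧ s ≠ 0 ∧ Fintype.card L = q ^ D ∧
      orderOf s = q ^ D - 1 := by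
  classical
  obtain ⟨p, m, hp, hm, rfl⟩ := hq
  have hp' : p.Prime := hp.nat_prime
  have : Fact p.Prime := ⟨hp'⟩
  have hq2 : 2 ≤ p ^ m := by
    calc 2 ≤ p := hp'.two_le
      _ = p ^ 1 := (pow_one p).symm
      _ ≤ p ^ m := Nat.pow_le_pow_right hp'.pos hm
  have h3m : 3 * m ≠ 0 := by omega
  have hmD : m * D ≠ 0 := by positivity
  let K := GaloisField p (3 * m)
  let L := GaloisField p (m * D)
  let _ : Fintype K := Fintype.ofFinite _
  let _ : Fintype L := Fintype.ofFinite _
  have hK : Fintype.card K = (p ^ m) ^ 3 := by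
    rw [← Nat.card_eq_fintype_card, GaloisField.card p _ h3m, ← pow_mul, mul_comm]
  have hL : Fintype.card L = (p ^ m) ^ D := by
    rw [← Nat.card_eq_fintype_card, GaloisField.card p _ hmD, ← pow_mul]
  obtain ⟨q, hqd⟩ : ∃ q, q = p ^ m := ⟨_, rfl⟩
  rw [← hqd] at hK hL hq2 ⊢
  -- the element s
  obtain ⟨s, hs⟩ := IsCyclic.exists_ofOrder_eq_natCard (α := Lˣ)
  have hs' : orderOf (s : L) = q ^ D - 1 := by
    rw [orderOf_units, hs, Nat.card_eq_fintype_card, Fintype.card_units, hL]
  -- the embedding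
  have hdvd : Module.finrank (ZMod p) K ∣ Module.finrank (ZMod p) L := by
    rw [GaloisField.finrank p h3m, GaloisField.finrank p hmD]
    obtain ⟨e, rfl⟩ := h3
    exact ⟨e, by ring⟩
  obtain ⟨j⟩ := FiniteField.nonempty_algHom_of_finrank_dvd hdvd
  exact ⟨K, inferInstance, inferInstance,
    { q := q
      hq := hq2
      card := hK
      σ := iterateFrobeniusEquiv K p m
      hσ := fun a => by
        rw [iterateFrobeniusEquiv_apply, iterateFrobenius_def, hqd] },
    L, inferInstance, inferInstance, j.toRingHom, (s : L), rfl, s.ne_zero, hL, hs'⟩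

end GV3
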