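import Pool.Agent.H258R2.GV.Alg

set_option linter.unusedSectionVars false
set_option linter.unusedVariables false

namespace GV3

open SkewMonoidAlgebra

variable {K : Type} [Field K] [Fintype K] [GD K]

theorem IsA.ne_zero {a : K} (ha : IsA a) : a ≠ 0 := by
  rintro rfl
  have := ha.nrm_eq
  simp [nrm] at this

theorem Fr_fr1_ne {a : K} (ha : IsA a) : fr 1 a ≠ 0 := fun h => ha.ne_zero ((fr_eq_zero 1).1 h)

theorem Fr_fr2_ne {a : K} (ha : IsA a) : fr 2 a ≠ 0 := fun h => ha.ne_zero ((fr_eq_zero 2).1 h)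

theorem IsA.eq_of_sq {a b : K} (ha : IsA a) (hb : IsA b) (h : a ^ 2 = b ^ 2) : a = b := by
  rcases sq_eq_sq_iff_eq_or_eq_neg.1 h with h | h
  · exact h
  · have h1 := ha.nrm_eq
    have h2 := hb.nrm_eq
    unfold nrm at h1 h2
    rw [h, map_neg, map_neg] at h1
    have h3 : (-1 : K) = 1 := by linear_combination h1 + h2
    rw [h]
    linear_combination b * h3

theorem IsA.eq_of_mul {a b : K} (ha : IsA a) (hb : IsA b) (h : a * fr 1 a = b * fr 1 b) : a = b := by
  have h1 := ha.nrm_eq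
  have h2 := hb.nrm_eq
  unfold nrm at h1 h2
  rw [h] at h1
  have h3 : b * fr 1 b ≠ 0 := mul_ne_zero hb.ne_zero (Fr_fr1_ne hb)
  have h4 : fr 2 a = fr 2 b := by
    apply mul_left_cancel₀ h3
    rw [h1, h2]
  exact fr_inj 2 h4

theorem supp_Nn (a : K) : Supp (Nn a) 0 1 :=
  supp_sub (supp_mono (supp_mon 0 a) le_rfl (by norm_num))
    (supp_mono (supp_mon 1 _) (by norm_num) le_rfl)

theorem supp_Qc (a : K) : Supp (Qc a) 0 2 :=
  supp_add (supp_sub (supp_mono (supp_mon 0 _) le_rfl (by norm_num))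
    (supp_mono (supp_mon 1 _) (by norm_num) (by norm_num)))
    (supp_mono (supp_mon 2 _) (by norm_num) le_rfl)

theorem Nn_mul_Qc {a : K} (ha : IsA a) : Nn a * Qc a = PI := by
  have h0 := ha.ne_zero
  have h1 := Fr_fr1_ne ha
  have he := ha.eqn
  have e0 : a * a⁻¹ = 1 := mul_inv_cancel₀ h0
  have e1 : fr 1 a * (fr 1 a)⁻¹ = 1 := mul_inv_cancel₀ h1
  rw [Nn, Qc, PI, sub_mul, mul_add, mul_sub, mul_add, mul_sub]
  simp only [mon_mul, fr_zero, map_add, map_inv₀, zero_add]
  norm_num only [Int.reduceAdd]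
  have k0 : mon 0 (a * a⁻¹) = mon 0 (1 : K) := by rw [e0]
  have k3 : mon 3 ((fr 1 a)⁻¹ * fr 1 a) = mon 3 (1 : K) := by rw [mul_comm, e1]
  have k1 : mon 1 (a * (a + a⁻¹)) = - mon 1 ((fr 1 a)⁻¹ * (fr 1 a)⁻¹) := by
    rw [← mon_neg]
    congr 1
    linear_combination he + e0
  have k2 : mon 2 ((fr 1 a)⁻¹ * (fr 1 a + (fr 1 a)⁻¹)) = - mon 2 (a * a) := by
    rw [← mon_neg]
    congr 1
    linear_combination he + e1
  rw [k0, k1, k2, k3]
  abel

/-- in the domain `Lam K` a factorisation of the central element `Π` can be turned round. -/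
theorem Fr_swap {X Y : Lam K} (h : X * Y = PI) : Y * X = PI := by
  have hX : X ≠ 0 := by
    rintro rfl
    rw [zero_mul] at h
    exact PI_ne_zero h.symm
  have h1 : X * (Y * X - PI) = 0 := by
    rw [mul_sub, ← mul_assoc, h, PI_comm, sub_self]
  rcases mul_eq_zero'' h1 with h2 | h2
  · exact absurd h2 hX
  · exact sub_eq_zero.1 h2

theorem Qc_mul_Nn {a : K} (ha : IsA a) : Qc a * Nn a = PI := Fr_swap (Nn_mul_Qc ha)

/-- the element `τ ^ 2 - τ`. -/
noncomputable def Fr_u0 : Lam K := mon 2 1 - mon 1 1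

theorem Fr_st_Nn (a : K) : st (Nn a) = mon 0 a - mon (-1) a⁻¹ := by
  rw [Nn, map_sub, st_mon, st_mon, map_inv₀, fr_fr, neg_zero, fr_zero]
  norm_num only [Int.reduceAdd]
  rw [fr_zero]

theorem Fr_Qc_eq (b : K) : Qc b = st (Nn b) * Fr_u0 := by
  rw [Fr_st_Nn, Fr_u0, Qc]
  simp only [sub_mul, mul_sub, mon_mul, map_one, mul_one, zero_add, mon_add]
  norm_num only [Int.reduceAdd]
  abel

theorem Fr_st_PI_comm (X : Lam K) : st PI * X = X * st PI := by
  have h := PI_comm (st X)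
  have h2 := congrArg st h
  rw [st_mul, st_mul, st_st] at h2
  exact h2.symm

/-- one step is unitary up to the scalar `Π`. -/
theorem unitary_step {a b : K} (ha : IsA a) (hb : IsA b) :
    st (Qc b * Nn a) * (Qc b * Nn a) = st PI * PI := by
  have h1 : Nn b * (st (Nn b) * Fr_u0) = PI := by rw [← Fr_Qc_eq, Nn_mul_Qc hb]
  have h2 : st (Nn a) * Fr_u0 * Nn a = PI := by rw [← Fr_Qc_eq, Qc_mul_Nn ha]
  have h3 : st (Nn a) * (st Fr_u0 * Nn a) = st PI := by
    rw [← h2, st_mul, st_mul, st_st]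
  have h4 : st (Qc b) = st Fr_u0 * Nn b := by rw [Fr_Qc_eq, st_mul, st_st]
  calc st (Qc b * Nn a) * (Qc b * Nn a)
      = st (Nn a) * (st Fr_u0 * (Nn b * (st (Nn b) * Fr_u0) * Nn a)) := by
        rw [st_mul, h4, Fr_Qc_eq b]
        simp only [mul_assoc]
    _ = st (Nn a) * (st Fr_u0 * Nn a) * PI := by
        rw [h1, PI_comm]
        simp only [mul_assoc]
    _ = st PI * PI := by rw [h3]

theorem supp_Pd (a b : ℕ → K) (g : ℕ) : Supp (Pd a b g) 0 (3 * g) := by
  induction g with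
  | zero =>
    show Supp (1 : Lam K) 0 (3 * (0 : ℕ))
    rw [one_eq]
    exact supp_mono (supp_mon 0 1) le_rfl (by norm_num)
  | succ g ih =>
    show Supp (Qc (b g) * Nn (a g) * Pd a b g) 0 (3 * (g + 1 : ℕ))
    exact supp_mono (supp_mul (supp_mul (supp_Qc _) (supp_Nn _)) ih) (by norm_num)
      (by push_cast; linarith)

theorem unitary_Pd (g : ℕ) (a b : ℕ → K) (ha : ∀ i < g, IsA (a i)) (hb : ∀ i < g, IsA (b i)) :
    st (Pd a b g) * Pd a b g = st PI ^ g * PI ^ g := by
  induction g with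
  | zero =>
    show st (1 : Lam K) * 1 = _
    rw [st_one, pow_zero, pow_zero]
  | succ g ih =>
    have ih' := ih (fun i hi => ha i (by omega)) (fun i hi => hb i (by omega))
    show st (Qc (b g) * Nn (a g) * Pd a b g) * (Qc (b g) * Nn (a g) * Pd a b g) = _
    have h1 := unitary_step (ha g (by omega)) (hb g (by omega))
    calc st (Qc (b g) * Nn (a g) * Pd a b g) * (Qc (b g) * Nn (a g) * Pd a b g)
        = st (Pd a b g) * ((st (Qc (b g) * Nn (a g)) * (Qc (b g) * Nn (a g))) * Pd a b g) := by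
          rw [st_mul]
          simp only [mul_assoc]
      _ = st (Pd a b g) * (st PI * PI * Pd a b g) := by rw [h1]
      _ = (st (Pd a b g) * Pd a b g) * (st PI * PI) := by
          rw [mul_assoc (st PI), PI_comm, ← mul_assoc (st PI), Fr_st_PI_comm]
          simp only [mul_assoc]
      _ = st PI ^ g * PI ^ g * (st PI * PI) := by rw [ih']
      _ = st PI ^ (g + 1) * PI ^ (g + 1) := by
          have hc0 : Commute (PI : Lam K) (st PI) := PI_comm (st PI)
          have hc : Commute (PI ^ g) (st PI : Lam K) := hc0.pow_left g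
          rw [pow_succ, pow_succ]
          calc st PI ^ g * PI ^ g * (st PI * PI) = st PI ^ g * (PI ^ g * st PI) * PI := by
                simp only [mul_assoc]
            _ = st PI ^ g * (st PI * PI ^ g) * PI := by rw [hc.eq]
            _ = _ := by simp only [mul_assoc]

theorem Fr_act_Nn (a z : K) : act (Nn a) z = a * z - (fr 1 a)⁻¹ * fr 1 z := by
  rw [Nn, act_sub, act_mon, act_mon, fr_zero]

theorem Fr_act_Qc (a z : K) :
    act (Qc a) z = a⁻¹ * z - (a + a⁻¹) * fr 1 z + a * fr 2 z := by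
  rw [Qc, act_add, act_sub, act_mon, act_mon, act_mon, fr_zero]

theorem Fr_type_of_Nn {c y : K} (hc : IsA c) (h : act (Nn c) y = 0) :
    fr 1 y = c * fr 1 c * y := by
  rw [Fr_act_Nn] at h
  have h1 := Fr_fr1_ne hc
  field_simp at h
  linear_combination -h

/-- the algebraic core of the step lemma -/
theorem Fr_core {a c : K} (ha : IsA a) (hc : IsA c)
    (h : c * fr 1 c * (fr 2 a)⁻¹ * (fr 1 a * fr 2 a - fr 1 c * fr 2 c) =
      (fr 1 a)⁻¹ * (a * fr 1 a - c * fr 1 c)) : a = c := by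
  have a0 := ha.ne_zero
  have a1 := Fr_fr1_ne ha
  have a2 := Fr_fr2_ne ha
  have c0 := hc.ne_zero
  have c1 := Fr_fr1_ne hc
  have c2 := Fr_fr2_ne hc
  have na := ha.nrm_eq
  have nc := hc.nrm_eq
  unfold nrm at na nc
  have ea := ha.eqn
  have ec := hc.eqn
  have ea1 : (fr 1 a) ^ 2 + 1 + ((fr 2 a)⁻¹) ^ 2 = 0 := by
    have := congrArg (fr 1) ea
    simpa [fr_fr] using this
  have hfin : a * fr 1 a = c * fr 1 c → a = c := fun h => ha.eq_of_mul hc h
  generalize fr 1 a = A1 at *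
  generalize fr 2 a = A2 at *
  generalize fr 1 c = C1 at *
  generalize fr 2 c = C2 at *
  have hA2 : A2⁻¹ = a * A1 := by
    field_simp
    linear_combination -na
  have k1 : A1 ^ 2 * C1 * (c - a) = a * A1 - c * C1 := by
    rw [hA2] at h
    have h' : A1 * (c * C1 * (a * A1) * (A1 * A2 - C1 * C2)) = a * A1 - c * C1 := by
      rw [h]; field_simp
    linear_combination h' - A1 ^ 2 * c * C1 * na + A1 ^ 2 * a * C1 * nc
  have k2 : (a ^ 2 - c ^ 2) * (A1 ^ 2 * C1 ^ 2) = A1 ^ 2 - C1 ^ 2 := by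
    have e1 : A1 ^ 2 * (a ^ 2 + 1) + 1 = 0 := by
      field_simp at ea
      linear_combination ea
    have e2 : C1 ^ 2 * (c ^ 2 + 1) + 1 = 0 := by
      field_simp at ec
      linear_combination ec
    linear_combination C1 ^ 2 * e1 - A1 ^ 2 * e2
  have k3 : 1 + A1 ^ 2 = -(a * A1) ^ 2 := by
    rw [hA2] at ea1
    linear_combination ea1
  by_contra hne
  have hP : c - a ≠ 0 := fun h => hne (by linear_combination -h)
  have k4 : C1 - A1 = (c - a) * C1 * a * A1 ^ 2 := by
    apply mul_left_cancel₀ a0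
    linear_combination k1 - (c - a) * C1 * k3
  have k5 : ((c - a) * C1 * A1 ^ 2) * ((c + a) * C1) =
      ((c - a) * C1 * A1 ^ 2) * (a * (C1 + A1)) := by
    linear_combination -k2 + (C1 + A1) * k4
  have k6 := mul_left_cancel₀ (mul_ne_zero (mul_ne_zero hP c1) (pow_ne_zero 2 a1)) k5
  exact hne (hfin (by linear_combination -k6))

/-- the step lemma -/
theorem Fr_step {a b c y : K} (ha : IsA a) (hb : IsA b) (hc : IsA c) (hac : a ≠ c) (hba : a ≠ b)
    (hy : y ≠ 0) (hyc : fr 1 y = c * fr 1 c * y) :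
    act (Qc b * Nn a) y ≠ 0 ∧
      fr 1 (act (Qc b * Nn a) y) = b * fr 1 b * act (Qc b * Nn a) y := by
  have a1 := Fr_fr1_ne ha
  constructor
  · intro hx
    rw [act_mul] at hx
    have hz : act (Nn a) y = y * (fr 1 a)⁻¹ * (a * fr 1 a - c * fr 1 c) := by
      rw [Fr_act_Nn, hyc]
      field_simp
    have hz0 : act (Nn a) y ≠ 0 := by
      rw [hz]
      refine mul_ne_zero (mul_ne_zero hy (inv_ne_zero a1)) (sub_ne_zero.2 ?_)
      exact fun h => hac (ha.eq_of_mul hc h)
    have hxa : act (Qc a) (act (Nn a) y) = 0 := by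
      rw [← act_mul, Qc_mul_Nn ha, act_PI]
    generalize hzd : act (Nn a) y = z at *
    have key : ∀ d : K, IsA d → act (Qc d) z = 0 →
        fr (-1) (fr 2 z - fr 1 z) = d ^ 2 * (fr 2 z - fr 1 z) := by
      intro d hd h
      rw [Fr_act_Qc] at h
      have d0 := hd.ne_zero
      rw [map_sub, fr_fr, fr_fr]
      norm_num only [Int.reduceAdd, Int.reduceNeg]
      rw [fr_zero]
      field_simp at h
      linear_combination -h
    have e1 := key a ha hxa
    have e2 := key b hb hx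
    have e3 : fr 2 z - fr 1 z = 0 := by
      by_contra ht
      exact hba (ha.eq_of_sq hb (mul_right_cancel₀ ht (e1.symm.trans e2)))
    have e4 : fr 1 z = z := by
      apply fr_inj 1
      rw [fr_fr]
      exact sub_eq_zero.1 e3
    rw [hz] at e4
    have h12 : fr 1 (fr 1 a) = fr 2 a := by rw [fr_fr]; rfl
    have h12c : fr 1 (fr 1 c) = fr 2 c := by rw [fr_fr]; rfl
    rw [map_mul, map_mul, map_sub, map_mul, map_mul, map_inv₀, h12, h12c, hyc] at e4
    apply hac
    apply Fr_core ha hc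
    apply mul_left_cancel₀ hy
    linear_combination e4
  · apply Fr_type_of_Nn hb
    rw [← act_mul, ← mul_assoc, Nn_mul_Qc hb, act_mul, act_PI]

open Polynomial in
/-- the element `Q_c` does not act as zero -/
theorem Fr_exists_Qc {c : K} (hc : IsA c) : ∃ z : K, act (Qc c) z ≠ 0 := by
  by_contra hcon
  push Not at hcon
  have c0 := hc.ne_zero
  have hq := GD.hq (K := K)
  have hq0 : 0 < GD.q K := by omega
  set p : K[X] := C c * X ^ (GD.q K ^ 2) - C (c + c⁻¹) * X ^ (GD.q K) + C c⁻¹ * X with hp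
  have hlt : GD.q K < GD.q K ^ 2 := by nlinarith
  have hdeg : p.natDegree ≤ GD.q K ^ 2 := by
    rw [hp]
    refine (natDegree_add_le _ _).trans (max_le ((natDegree_sub_le _ _).trans (max_le ?_ ?_)) ?_)
    · exact natDegree_C_mul_X_pow_le _ _
    · exact (natDegree_C_mul_X_pow_le _ _).trans hlt.le
    · exact (natDegree_C_mul_le _ _).trans (natDegree_X_le.trans (by nlinarith))
  have hp0 : p = 0 := by
    refine Polynomial.eq_zero_of_natDegree_lt_card_of_eval_eq_zero p
      (Function.injective_id : Function.Injective (id : K → K)) ?_ ?_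
    · intro z
      have := hcon z
      rw [Fr_act_Qc] at this
      have h2 := fr_nat 2 z
      have h1 := fr_one z
      rw [hp]
      simp only [id, eval_add, eval_sub, eval_mul, eval_C, eval_pow, eval_X]
      rw [show ((2 : ℕ) : ℤ) = 2 from rfl] at h2
      rw [← h2, ← h1]
      linear_combination this
    · rw [GD.card (K := K)]
      refine hdeg.trans_lt ?_
      exact Nat.pow_lt_pow_right (by omega) (by norm_num)
  have h1 : p.coeff (GD.q K ^ 2) = c := by
    rw [hp]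
    simp only [Polynomial.coeff_add, Polynomial.coeff_sub, coeff_C_mul, coeff_X_pow, coeff_X]
    rw [if_pos trivial, if_neg hlt.ne', if_neg (by nlinarith)]
    ring
  rw [hp0, Polynomial.coeff_zero] at h1
  exact c0 h1.symm

theorem Fr_start {c : K} (hc : IsA c) : ∃ y : K, y ≠ 0 ∧ fr 1 y = c * fr 1 c * y := by
  obtain ⟨z, hz⟩ := Fr_exists_Qc hc
  refine ⟨act (Qc c) z, hz, Fr_type_of_Nn hc ?_⟩
  rw [← act_mul, Nn_mul_Qc hc, act_PI]

/-- reduced products do not act as zero on `K`. -/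
theorem act_Pd_ne (g : ℕ) (hg : 1 ≤ g) (a b : ℕ → K) (ha : ∀ i < g, IsA (a i))
    (hb : ∀ i < g, IsA (b i)) (hab : ∀ i < g, a i ≠ b i) (hba : ∀ i, i + 1 < g → b i ≠ a (i + 1)) :
    ∃ w : K, act (Pd a b g) w ≠ 0 := by
  obtain ⟨y, hy, hyc⟩ := Fr_start (hb 0 hg)
  refine ⟨y, ?_⟩
  have key : ∀ i < g, act (Pd a b (i + 1)) y ≠ 0 ∧
      fr 1 (act (Pd a b (i + 1)) y) = b i * fr 1 (b i) * act (Pd a b (i + 1)) y := by
    intro i
    induction i with
    | zero =>
      intro h0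
      have hP : Pd a b (0 + 1) = Qc (b 0) * Nn (a 0) := by
        show Qc (b 0) * Nn (a 0) * 1 = _
        rw [mul_one]
      rw [hP]
      exact Fr_step (ha 0 h0) (hb 0 h0) (hb 0 h0) (hab 0 h0) (hab 0 h0) hy hyc
    | succ i ih =>
      intro h1
      obtain ⟨k1, k2⟩ := ih (by omega)
      have hP : Pd a b (i + 1 + 1) = Qc (b (i + 1)) * Nn (a (i + 1)) * Pd a b (i + 1) := rfl
      rw [hP, act_mul _ (Pd a b (i + 1))]
      exact Fr_step (ha _ h1) (hb _ h1) (hb i (by omega)) (fun h => hba i h1 h.symm) (hab _ h1)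
        k1 k2
  obtain ⟨m, rfl⟩ : ∃ m, g = m + 1 := ⟨g - 1, by omega⟩
  exact (key m (by omega)).1

theorem Pd_ne (g : ℕ) (hg : 1 ≤ g) (a b : ℕ → K) (ha : ∀ i < g, IsA (a i))
    (hb : ∀ i < g, IsA (b i)) (hab : ∀ i < g, a i ≠ b i) (hba : ∀ i, i + 1 < g → b i ≠ a (i + 1)) :
    Pd a b g ≠ PI ^ g := by
  intro h
  obtain ⟨w, hw⟩ := act_Pd_ne g hg a b ha hb hab hba
  apply hw
  obtain ⟨m, rfl⟩ : ∃ m, g = m + 1 := ⟨g - 1, by omega⟩
  rw [h, pow_succ, act_mul, act_PI, map_zero]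

end GV3
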