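import Mathlib

namespace GV3

/-- between `x` and `x ^ (9/8)` there is a prime power. -/
theorem exists_primePow (x : ℕ) (hx : 2 ≤ x) : ∃ q, IsPrimePow q ∧ x ≤ q ∧ q ^ 8 < x ^ 9 := by
  have key : ∀ a b : ℕ, IsPrimePow b → b ^ 8 < (a + 1) ^ 9 → a < x → x ≤ b →
      ∃ q, IsPrimePow q ∧ x ≤ q ∧ q ^ 8 < x ^ 9 :=
    fun a b hb h1 h2 h3 => ⟨b, hb, h3, h1.trans_le (Nat.pow_le_pow_left h2 9)⟩
  have pp : ∀ p : ℕ, p.Prime → IsPrimePow p := fun p hp => hp.isPrimePow
  by_cases h0 : x ≤ 2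
  · exact key 1 2 (pp 2 (by norm_num)) (by norm_num) (by omega) h0
  by_cases h1 : x ≤ 3
  · exact key 2 3 (pp 3 (by norm_num)) (by norm_num) (by omega) h1
  by_cases h2 : x ≤ 4
  · have h4 : IsPrimePow 4 := by
      have : IsPrimePow (2 ^ 2) := (pp 2 (by norm_num)).pow (by norm_num)
      norm_num at this
      exact this
    exact key 3 4 h4 (by norm_num) (by omega) h2
  by_cases h3 : x ≤ 5
  · exact key 4 5 (pp 5 (by norm_num)) (by norm_num) (by omega) h3
  by_cases h4 : x ≤ 7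
  · exact key 5 7 (pp 7 (by norm_num)) (by norm_num) (by omega) h4
  by_cases h5 : x ≤ 9
  · have h9 : IsPrimePow 9 := by
      have : IsPrimePow (3 ^ 2) := (pp 3 (by norm_num)).pow (by norm_num)
      norm_num at this
      exact this
    exact key 7 9 h9 (by norm_num) (by omega) h5
  by_cases h6 : x ≤ 13
  · exact key 9 13 (pp 13 (by norm_num)) (by norm_num) (by omega) h6
  by_cases h7 : x ≤ 19
  · exact key 13 19 (pp 19 (by norm_num)) (by norm_num) (by omega) h7
  by_cases h8 : x ≤ 29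
  · exact key 19 29 (pp 29 (by norm_num)) (by norm_num) (by omega) h8
  by_cases h9 : x ≤ 43
  · exact key 29 43 (pp 43 (by norm_num)) (by norm_num) (by omega) h9
  by_cases h10 : x ≤ 67
  · exact key 43 67 (pp 67 (by norm_num)) (by norm_num) (by omega) h10
  by_cases h11 : x ≤ 113
  · exact key 67 113 (pp 113 (by norm_num)) (by norm_num) (by omega) h11
  by_cases h12 : x ≤ 199
  · exact key 113 199 (pp 199 (by norm_num)) (by norm_num) (by omega) h12
  by_cases h13 : x ≤ 383
  · exact key 199 383 (pp 383 (by norm_num)) (by norm_num) (by omega) h13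
  obtain ⟨p, hp, hp1, hp2⟩ := Nat.exists_prime_lt_and_le_two_mul (x - 1) (by omega)
  refine ⟨p, hp.isPrimePow, by omega, ?_⟩
  calc p ^ 8 ≤ (2 * x) ^ 8 := Nat.pow_le_pow_left (by omega) 8
    _ = 256 * x ^ 8 := by ring
    _ < x * x ^ 8 := by
        apply Nat.mul_lt_mul_of_pos_right (by omega)
        positivity
    _ = x ^ 9 := by ring

end GV3
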