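import Pool.Agent.H258R2.GV.Base

set_option linter.unusedSectionVars false
set_option linter.unusedVariables false

namespace GV3

open SkewMonoidAlgebra

variable {K : Type} [Field K] [Fintype K] [GD K]

/-- trace -/
noncomputable def Nc_tr (t : K) : K := t + fr 1 t + fr 2 t

open Classical in
/-- the fixed field of the Frobenius -/
noncomputable def Nc_C (K : Type) [Field K] [Fintype K] [GD K] : Finset K :=
  Finset.univ.filter (fun c => fr 1 c = c)

open Classical in
/-- the kernel of the trace -/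
noncomputable def Nc_A (K : Type) [Field K] [Fintype K] [GD K] : Finset K :=
  Finset.univ.filter (fun t => Nc_tr t = 0)

theorem Nc_mem_C {c : K} : c ∈ Nc_C K ↔ fr 1 c = c := by
  classical
  simp [Nc_C]

theorem Nc_mem_A {c : K} : c ∈ Nc_A K ↔ Nc_tr c = 0 := by
  classical
  simp [Nc_A]

theorem Nc_card_C : (Nc_C K).card ≤ GD.q K := by
  classical
  have hq := GD.hq (K := K)
  have h1 : Nc_C K ⊆ ((Polynomial.X ^ (GD.q K) - Polynomial.X : Polynomial K)).roots.toFinset := by
    intro c hc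
    rw [Nc_mem_C, fr_one] at hc
    rw [Multiset.mem_toFinset, Polynomial.mem_roots
      (FiniteField.X_pow_card_sub_X_ne_zero K (by omega))]
    simp [Polynomial.IsRoot, hc]
  refine (Finset.card_le_card h1).trans ?_
  refine (Multiset.toFinset_card_le _).trans ?_
  refine (Polynomial.card_roots' _).trans ?_
  rw [FiniteField.X_pow_card_sub_X_natDegree_eq K (by omega)]

theorem Nc_tr_sub (s t : K) : Nc_tr (s - t) = Nc_tr s - Nc_tr t := by
  unfold Nc_tr
  rw [map_sub, map_sub]
  ring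

theorem Nc_tr_fix (t : K) : fr 1 (Nc_tr t) = Nc_tr t := by
  unfold Nc_tr
  rw [map_add, map_add, fr_fr, fr_fr]
  have h : fr ((1:ℤ) + 2) t = t := fr_three t
  rw [h]
  have h2 : ((1:ℤ) + 1) = 2 := rfl
  rw [h2]
  ring

theorem Nc_card_A : GD.q K ^ 2 ≤ (Nc_A K).card := by
  classical
  have hq := GD.hq (K := K)
  have h1 : (Finset.univ : Finset K).card ≤
      (Nc_A K).card * ((Finset.univ : Finset K).image Nc_tr).card := by
    apply Finset.card_le_mul_card_image
    intro b hb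
    obtain ⟨t0, -, ht0⟩ := Finset.mem_image.1 hb
    apply Finset.card_le_card_of_injOn (fun t => t - t0)
    · intro t ht
      have h2 := (Finset.mem_filter.1 (Finset.mem_coe.1 ht)).2
      rw [Finset.mem_coe, Nc_mem_A, Nc_tr_sub, h2, ht0, sub_self]
    · intro t _ t' _ h
      exact sub_left_injective h
  have h2 : ((Finset.univ : Finset K).image Nc_tr).card ≤ GD.q K := by
    refine (Finset.card_le_card ?_).trans Nc_card_C
    intro b hb
    obtain ⟨t, -, rfl⟩ := Finset.mem_image.1 hb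
    rw [Nc_mem_C]
    exact Nc_tr_fix t
  rw [Finset.card_univ, GD.card] at h1
  have h3 : GD.q K ^ 3 ≤ (Nc_A K).card * GD.q K := h1.trans (Nat.mul_le_mul_left _ h2)
  have h4 : GD.q K ^ 2 * GD.q K ≤ (Nc_A K).card * GD.q K := by
    rw [← pow_succ]; exact h3
  exact Nat.le_of_mul_le_mul_right h4 (by omega)

/-- the map `t ↦ fr 2 t / t` -/
noncomputable def Nc_w (t : K) : K := fr 2 t / t

open Classical in
theorem Nc_card_W : GD.q K + 1 ≤ (((Nc_A K).erase 0).image Nc_w).card := by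
  have hq := GD.hq (K := K)
  have h1 : ((Nc_A K).erase 0).card ≤ (GD.q K - 1) * (((Nc_A K).erase 0).image Nc_w).card := by
    apply Finset.card_le_mul_card_image
    intro b hb
    obtain ⟨t0, ht0, ht0b⟩ := Finset.mem_image.1 hb
    have h0 : t0 ≠ 0 := (Finset.mem_erase.1 ht0).1
    have h2 : ((Nc_C K).erase 0).card ≤ GD.q K - 1 := by
      rw [Finset.card_erase_of_mem (by rw [Nc_mem_C, map_zero])]
      exact Nat.sub_le_sub_right Nc_card_C 1
    refine le_trans ?_ h2
    apply Finset.card_le_card_of_injOn (fun t => t / t0)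
    · intro t ht
      obtain ⟨h3, h4⟩ := Finset.mem_filter.1 (Finset.mem_coe.1 ht)
      have h5 : t ≠ 0 := (Finset.mem_erase.1 h3).1
      rw [Finset.mem_coe, Finset.mem_erase, Nc_mem_C]
      refine ⟨div_ne_zero h5 h0, ?_⟩
      -- fixed by fr 2
      have h6 : fr 2 t / t = fr 2 t0 / t0 := by
        have := h4.trans ht0b.symm
        exact this
      have h7 : fr 2 t0 ≠ 0 := by rwa [Ne, fr_eq_zero]
      have h8 : fr 2 (t / t0) = t / t0 := by
        rw [map_div₀]
        rw [div_eq_div_iff h5 h0] at h6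
        rw [div_eq_div_iff h7 h0]
        linear_combination h6
      have h9 : fr 1 (t / t0) = fr 2 (fr 2 (t / t0)) := by
        rw [fr_fr, show (2:ℤ) + 2 = 1 + 3 by norm_num, fr_add_three]
      rw [h9, h8, h8]
    · intro t _ t' _ h
      exact (div_left_inj' h0).1 h
  have h2 : 0 ∈ Nc_A K := by
    rw [Nc_mem_A]; simp [Nc_tr]
  rw [Finset.card_erase_of_mem h2] at h1
  have h3 := Nc_card_A (K := K)
  have h4 : (GD.q K - 1) * (GD.q K + 1) ≤ (GD.q K - 1) * (((Nc_A K).erase 0).image Nc_w).card := by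
    refine le_trans ?_ h1
    obtain ⟨k, hk⟩ : ∃ k, GD.q K = k + 1 := ⟨GD.q K - 1, by omega⟩
    rw [hk] at h3 ⊢
    have : (k + 1 - 1) * (k + 1 + 1) = (k + 1) ^ 2 - 1 := by
      have : (k + 1) ^ 2 = k * (k + 2) + 1 := by ring
      rw [this]
      simp
    rw [this]
    omega
  have h5 : 0 < GD.q K - 1 := by omega
  exact Nat.le_of_mul_le_mul_left h4 h5

theorem Nc_isA {t : K} (ht : t ≠ 0) (h : Nc_tr t = 0) :
    nrm (Nc_w t) = 1 ∧ Nc_w t * fr 1 (Nc_w t) + fr 1 (Nc_w t) + 1 = 0 ∧ Nc_w t ≠ 0 := by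
  have h1 : fr 1 t ≠ 0 := by rwa [Ne, fr_eq_zero]
  have h2 : fr 2 t ≠ 0 := by rwa [Ne, fr_eq_zero]
  have e1 : fr 1 (Nc_w t) = t / fr 1 t := by
    unfold Nc_w
    rw [map_div₀, fr_fr, show (1:ℤ) + 2 = 3 by norm_num, fr_three]
  have e2 : fr 2 (Nc_w t) = fr 1 t / fr 2 t := by
    unfold Nc_w
    rw [map_div₀, fr_fr, show (2:ℤ) + 2 = 1 + 3 by norm_num, fr_add_three]
  refine ⟨?_, ?_, ?_⟩
  · unfold nrm
    rw [e1, e2]
    unfold Nc_w
    field_simp
  · rw [e1]
    unfold Nc_w
    unfold Nc_tr at h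
    field_simp
    linear_combination h
  · unfold Nc_w
    exact div_ne_zero h2 ht

/-- there are at least `q + 1` parameters. -/
theorem exists_F : ∃ F : Finset K, GD.q K + 1 ≤ F.card ∧ ∀ a ∈ F, IsA a := by
  classical
  set e : ℕ := (GD.q K ^ 2 + GD.q K + 2) / 2 with he
  have he2 : e * 2 = GD.q K ^ 2 + GD.q K + 2 := by
    have h1 : 2 ∣ GD.q K ^ 2 + GD.q K + 2 := by
      have h2 : 2 ∣ GD.q K * (GD.q K + 1) := (Nat.even_mul_succ_self _).two_dvd
      have h3 : GD.q K ^ 2 + GD.q K + 2 = GD.q K * (GD.q K + 1) + 2 := by ring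
      rw [h3]
      exact (Nat.dvd_add_right h2).2 (dvd_refl 2)
    exact Nat.div_mul_cancel h1
  have hsq : ∀ w : K, nrm w = 1 → (w ^ e) ^ 2 = w := by
    intro w hw
    rw [← pow_mul, he2]
    have h1 : nrm w = w ^ (1 + GD.q K + GD.q K ^ 2) := by
      unfold nrm
      have h2 := fr_nat 2 w
      have h3 : fr 2 w = w ^ (GD.q K ^ 2) := by exact_mod_cast h2
      rw [h3, fr_one]
      ring
    have h4 : w ^ (GD.q K ^ 2 + GD.q K + 2) = w * nrm w := by
      rw [h1]
      ring
    rw [h4, hw, mul_one]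
  set W : Finset K := ((Nc_A K).erase 0).image Nc_w with hW
  have hWp : ∀ w ∈ W, nrm w = 1 ∧ w * fr 1 w + fr 1 w + 1 = 0 ∧ w ≠ 0 := by
    intro w hw
    obtain ⟨t, ht, rfl⟩ := Finset.mem_image.1 hw
    obtain ⟨ht0, ht1⟩ := Finset.mem_erase.1 ht
    rw [Nc_mem_A] at ht1
    exact Nc_isA ht0 ht1
  refine ⟨W.image (fun w => w ^ e), ?_, ?_⟩
  · rw [Finset.card_image_of_injOn]
    · have := Nc_card_W (K := K)
      exact this
    · intro w hw w' hw' h
      have h1 := hsq w (hWp w hw).1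
      have h2 := hsq w' (hWp w' hw').1
      simp only at h
      rw [← h1, h, h2]
  · intro a ha
    obtain ⟨w, hw, rfl⟩ := Finset.mem_image.1 ha
    obtain ⟨h1, h2, h3⟩ := hWp w hw
    have h4 := hsq w h1
    refine ⟨?_, ?_⟩
    · have : nrm (w ^ e) = (nrm w) ^ e := by
        unfold nrm
        rw [map_pow, map_pow, mul_pow, mul_pow]
      rw [this, h1, one_pow]
    · rw [h4, inv_pow, ← map_pow, h4]
      have h5 : fr 1 w ≠ 0 := by rwa [Ne, fr_eq_zero]
      field_simp
      linear_combination h2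

end GV3
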