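import Pool.Agent.H258R2.GV.Iq
import Pool.Agent.H258R2.GV.Fr
import Pool.Agent.H258R2.GV.Nc

set_option linter.unusedSectionVars false
set_option linter.unusedVariables false

namespace GV3

open SkewMonoidAlgebra

variable {K : Type} [Field K] [Fintype K] [GD K]

section
variable {L : Type} [Field L] (j : K →+* L) (s : L) (hs : s ≠ 0)

/-- the even vertices. -/
def V0 (L : Type) [Field L] : Type := {A : Matrix (Fin 3) (Fin 3) L // A.det = 1}

/-- the odd vertices. -/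
def V1 : Type := {A : Matrix (Fin 3) (Fin 3) L // A.det = 1 - s}

/-- adjacency. -/
def Ed (A : V0 L) (B : V1 s) : Prop := ∃ a : K, IsA a ∧ B.1 = rho j s hs (Nn a) * A.1

theorem Gr_cancel {L : Type} [Field L] {X Y A : Matrix (Fin 3) (Fin 3) L} (hA : A.det ≠ 0)
    (h : X * A = Y * A) : X = Y := by
  have hu : IsUnit A.det := isUnit_iff_ne_zero.2 hA
  calc X = X * A * A⁻¹ := by rw [Matrix.mul_assoc, Matrix.mul_nonsing_inv A hu, Matrix.mul_one]
    _ = Y * A * A⁻¹ := by rw [h]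
    _ = Y := by rw [Matrix.mul_assoc, Matrix.mul_nonsing_inv A hu, Matrix.mul_one]

theorem Gr_cancel' {L : Type} [Field L] {X Y A : Matrix (Fin 3) (Fin 3) L} (hA : A.det ≠ 0)
    (h : A * X = A * Y) : X = Y := by
  have hu : IsUnit A.det := isUnit_iff_ne_zero.2 hA
  calc X = A⁻¹ * (A * X) := by rw [← Matrix.mul_assoc, Matrix.nonsing_inv_mul A hu, Matrix.one_mul]
    _ = A⁻¹ * (A * Y) := by rw [h]
    _ = Y := by rw [← Matrix.mul_assoc, Matrix.nonsing_inv_mul A hu, Matrix.one_mul]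

theorem deg_even (A : V0 L) : ∃ F : Finset K, GD.q K + 1 ≤ F.card ∧ ∃ φ : F → V1 s,
    (∀ a, Ed j s hs A (φ a)) ∧ Function.Injective φ := by
  obtain ⟨F, hF, hA⟩ := exists_F (K := K)
  refine ⟨F, hF, fun a => ⟨rho j s hs (Nn a.1) * A.1, by
    rw [Matrix.det_mul, det_rho_Nn j s hs (hA _ a.2), A.2, mul_one]⟩, ?_, ?_⟩
  · intro a
    exact ⟨a.1, hA _ a.2, rfl⟩
  · intro a b h
    have h1 : rho j s hs (Nn a.1) * A.1 = rho j s hs (Nn b.1) * A.1 := congrArg Subtype.val h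
    have h2 : A.1.det ≠ 0 := by
      rw [A.2]
      exact one_ne_zero
    exact Subtype.ext (rho_Nn_inj j s hs (Gr_cancel h2 h1))

theorem deg_odd (h1 : 1 - s ≠ 0) (B : V1 s) : ∃ F : Finset K, GD.q K + 1 ≤ F.card ∧
    ∃ φ : F → V0 L, (∀ a, Ed j s hs (φ a) B) ∧ Function.Injective φ := by
  obtain ⟨F, hF, hA⟩ := exists_F (K := K)
  have hu : ∀ a : F, IsUnit (rho j s hs (Nn a.1)).det := by
    intro a
    rw [det_rho_Nn j s hs (hA _ a.2)]
    exact isUnit_iff_ne_zero.2 h1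
  have hm : ∀ a : F, rho j s hs (Nn a.1) * ((rho j s hs (Nn a.1))⁻¹ * B.1) = B.1 := by
    intro a
    rw [← Matrix.mul_assoc, Matrix.mul_nonsing_inv _ (hu a), Matrix.one_mul]
  refine ⟨F, hF, fun a => ⟨(rho j s hs (Nn a.1))⁻¹ * B.1, ?_⟩, ?_, ?_⟩
  · have h2 := congrArg Matrix.det (hm a)
    rw [Matrix.det_mul, det_rho_Nn j s hs (hA _ a.2), B.2] at h2
    exact mul_left_cancel₀ h1 (h2.trans (mul_one _).symm)
  · intro a
    exact ⟨a.1, hA _ a.2, (hm a).symm⟩
  · intro a b h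
    have h2 : (rho j s hs (Nn a.1))⁻¹ * B.1 = (rho j s hs (Nn b.1))⁻¹ * B.1 :=
      congrArg Subtype.val h
    have h3 : (rho j s hs (Nn a.1))⁻¹ = (rho j s hs (Nn b.1))⁻¹ := by
      refine Gr_cancel ?_ h2
      rw [B.2]
      exact h1
    have h4 : rho j s hs (Nn a.1) = rho j s hs (Nn b.1) := by
      rw [← Matrix.nonsing_inv_nonsing_inv _ (hu a), h3, Matrix.nonsing_inv_nonsing_inv _ (hu b)]
    exact Subtype.ext (rho_Nn_inj j s hs h4)

theorem Gr_st_pow (n : ℕ) : st ((PI : Lam K) ^ n) = st PI ^ n := by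
  induction n with
  | zero => rw [pow_zero, pow_zero, st_one]
  | succ n ih => rw [pow_succ, st_mul, ih, ← pow_succ']

/-- closed walks without backtracking are long. -/
theorem closed_walk [Fintype L] (D : ℕ) (hcard : Fintype.card L = GD.q K ^ D) (h3 : 3 ∣ D)
    (hD : 0 < D) (hord : orderOf s = GD.q K ^ D - 1) (g : ℕ) (hg : 1 ≤ g)
    (A : ℕ → V0 L) (B : ℕ → V1 s) (hP : ∀ i < g, Ed j s hs (A i) (B i))
    (hR : ∀ i < g, Ed j s hs (A (i + 1)) (B i)) (hA : ∀ i < g, A i ≠ A (i + 1))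
    (hB : ∀ i, i + 1 < g → B i ≠ B (i + 1)) (hclose : A g = A 0) : 12 * D ≤ 2 * g := by
  have hs1 : 1 - s ≠ 0 := s_ne_one (K := K) s D hD h3 hord
  have hex : ∀ i, ∃ a, i < g → IsA a ∧ (B i).1 = rho j s hs (Nn a) * (A i).1 := by
    intro i
    by_cases hi : i < g
    · obtain ⟨a, ha⟩ := hP i hi
      exact ⟨a, fun _ => ha⟩
    · exact ⟨0, fun h => absurd h hi⟩
  have hex' : ∀ i, ∃ a, i < g → IsA a ∧ (B i).1 = rho j s hs (Nn a) * (A (i + 1)).1 := by
    intro i
    by_cases hi : i < g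
    · obtain ⟨a, ha⟩ := hR i hi
      exact ⟨a, fun _ => ha⟩
    · exact ⟨0, fun h => absurd h hi⟩
  choose a ha using hex
  choose b hb using hex'
  have haA : ∀ i < g, IsA (a i) := fun i hi => (ha i hi).1
  have hbA : ∀ i < g, IsA (b i) := fun i hi => (hb i hi).1
  have hdetN : ∀ x : K, IsA x → (rho j s hs (Nn x)).det ≠ 0 := by
    intro x hx
    rw [det_rho_Nn j s hs hx]
    exact hs1
  have hdetA : ∀ i, (A i).1.det ≠ 0 := by
    intro i
    rw [(A i).2]
    exact one_ne_zero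
  have hab : ∀ i < g, a i ≠ b i := by
    intro i hi he
    apply hA i hi
    apply Subtype.ext
    have h1 := (ha i hi).2
    rw [(hb i hi).2, he] at h1
    exact (Gr_cancel' (hdetN _ (hbA i hi)) h1).symm
  have hba : ∀ i, i + 1 < g → b i ≠ a (i + 1) := by
    intro i hi he
    apply hB i hi
    apply Subtype.ext
    rw [(hb i (by omega)).2, (ha (i + 1) hi).2, he]
  -- the products
  have hPd : ∀ i, i ≤ g → rho j s hs (Pd a b i) * (A 0).1 = (1 - s) ^ i • (A i).1 := by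
    intro i
    induction i with
    | zero =>
      intro _
      simp [Pd]
    | succ i ih =>
      intro hi
      have hi' : i < g := by omega
      have e1 : Pd a b (i + 1) = Qc (b i) * Nn (a i) * Pd a b i := rfl
      rw [e1, map_mul, map_mul, Matrix.mul_assoc, ih hi'.le, Matrix.mul_smul, Matrix.mul_assoc,
        ← (ha i hi').2, (hb i hi').2, ← Matrix.mul_assoc, ← map_mul, Qc_mul_Nn (hbA i hi'), rho_PI,
        Matrix.smul_mul, Matrix.one_mul, smul_smul, pow_succ]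
  have hPg : rho j s hs (Pd a b g) = (1 - s) ^ g • (1 : Matrix (Fin 3) (Fin 3) L) := by
    have h1 := hPd g le_rfl
    rw [hclose] at h1
    refine Gr_cancel (hdetA 0) ?_
    rw [h1, Matrix.smul_mul, Matrix.one_mul]
  have hPIg : rho j s hs ((PI : Lam K) ^ g) = (1 - s) ^ g • (1 : Matrix (Fin 3) (Fin 3) L) := by
    rw [map_pow, rho_PI, smul_pow, one_pow]
  have hsg : (1 - s) ^ g ≠ 0 := pow_ne_zero _ hs1
  have hstPI : rho j s hs (st ((PI : Lam K) ^ g)) =
      (1 - s⁻¹) ^ g • (1 : Matrix (Fin 3) (Fin 3) L) := by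
    rw [Gr_st_pow, map_pow, rho_st_PI, smul_pow, one_pow]
  have hstP : rho j s hs (st (Pd a b g)) =
      (1 - s⁻¹) ^ g • (1 : Matrix (Fin 3) (Fin 3) L) := by
    have h1 := congrArg (rho j s hs) (unitary_Pd g a b haA hbA)
    rw [map_mul, map_mul, hPg, ← Gr_st_pow, hstPI, hPIg] at h1
    refine Gr_cancel (A := (1 - s) ^ g • (1 : Matrix (Fin 3) (Fin 3) L)) ?_ h1
    rw [Matrix.det_smul, Matrix.det_one, mul_one]
    exact pow_ne_zero _ hsg
  refine main_ineq j s hs D hcard h3 hD hord (fun i => PI ^ (g - i) * Pd a b i)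
    (fun i => Nn (b i)) (fun i => Nn (a i)) g ?_ ?_ ?_ ?_ ?_ ?_ ?_
  · intro i hi
    refine ⟨supp_Nn _, ?_⟩
    intro h0
    have h1 := hdetN _ (hbA i hi)
    rw [h0, map_zero, Matrix.det_zero] at h1
    exact h1 rfl
  · change PI ^ (g - 0) * Pd a b 0 = PI ^ g
    rw [Nat.sub_zero]
    exact mul_one _
  · intro i hi
    change Nn (b i) * (PI ^ (g - (i + 1)) * (Qc (b i) * Nn (a i) * Pd a b i)) =
      Nn (a i) * (PI ^ (g - i) * Pd a b i)
    have hc : ∀ (n : ℕ) (X : Lam K), X * PI ^ n = PI ^ n * X := by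
      intro n X
      have h1 : Commute (PI : Lam K) X := PI_comm X
      exact (h1.pow_left n).eq.symm
    have hn : g - i = (g - (i + 1)) + 1 := by omega
    rw [← mul_assoc, hc, mul_assoc, ← mul_assoc (Nn (b i)), ← mul_assoc (Nn (b i)),
      Nn_mul_Qc (hbA i hi), ← mul_assoc (Nn (a i)), hc, hn, pow_succ]
    simp only [mul_assoc]
  · change PI ^ (g - g) * Pd a b g ≠ PI ^ g
    rw [Nat.sub_self, pow_zero, one_mul]
    exact Pd_ne g hg a b haA hbA hab hba
  · change Supp (PI ^ (g - g) * Pd a b g) 0 (3 * g)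
    rw [Nat.sub_self, pow_zero, one_mul]
    exact supp_Pd a b g
  · change rho j s hs (PI ^ (g - g) * Pd a b g - PI ^ g) = 0
    rw [Nat.sub_self, pow_zero, one_mul, map_sub, hPg, hPIg, sub_self]
  · change rho j s hs (st (PI ^ (g - g) * Pd a b g - PI ^ g)) = 0
    rw [Nat.sub_self, pow_zero, one_mul, map_sub, map_sub, hstP, hstPI, sub_self]
end

end GV3
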