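import Pool.Agent.H258R2.GV.Alg

set_option linter.unusedSectionVars false
set_option linter.unusedVariables false

namespace GV3

open SkewMonoidAlgebra

variable {K : Type} [Field K] [Fintype K] [GD K]

theorem LI_le_JJ (W : ℕ → Lam K) (n i : ℕ) (h : i ≤ n) : LI (W i) ≤ JJ W n := by
  induction n with
  | zero =>
    have : i = 0 := by omega
    subst this
    exact le_rfl
  | succ n ih =>
    rcases Nat.lt_or_ge n i with h1 | h1
    · have : i = n + 1 := by omega
      subst this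
      exact le_sup_right
    · exact (ih h1).trans le_sup_left


/-- one step: cancelling the top coefficient -/
theorem In_top (Z : Lam K) (l u : ℤ) (hlu : l ≤ u) (hZ : Supp Z l u)
    (hu : cf Z u ≠ 0) (X : Lam K) (m a b : ℤ) (ham : a ≤ m) (hb : m + (u - l) ≤ b)
    (hX : Supp X a b) : ∃ c, Supp (X - mon (b - u) c * Z) a (b - 1) := by
  have hfu : fr (b - u) (cf Z u) ≠ 0 := fun h => hu ((fr_eq_zero _).1 h)
  refine ⟨cf X b * (fr (b - u) (cf Z u))⁻¹, ?_⟩
  intro i hi
  rw [cf_sub, cf_mon_mul] at hi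
  have hib : i ≠ b := by
    rintro rfl
    apply hi
    have e : i - (i - u) = u := by ring
    rw [e, mul_assoc, inv_mul_cancel₀ hfu, mul_one, sub_self]
  by_cases h1 : cf X i = 0
  · have h2 : cf Z (i - (b - u)) ≠ 0 := by
      intro h2
      apply hi
      rw [h1, h2, map_zero, mul_zero, sub_zero]
    obtain ⟨h3, h4⟩ := hZ _ h2
    omega
  · obtain ⟨h3, h4⟩ := hX _ h1
    omega

/-- one step: cancelling the bottom coefficient -/
theorem In_bot (Z : Lam K) (l u : ℤ) (hlu : l ≤ u) (hZ : Supp Z l u)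
    (hl : cf Z l ≠ 0) (X : Lam K) (a b : ℤ) (hb : a + (u - l) ≤ b)
    (hX : Supp X a b) : ∃ c, Supp (X - mon (a - l) c * Z) (a + 1) b := by
  have hfl : fr (a - l) (cf Z l) ≠ 0 := fun h => hl ((fr_eq_zero _).1 h)
  refine ⟨cf X a * (fr (a - l) (cf Z l))⁻¹, ?_⟩
  intro i hi
  rw [cf_sub, cf_mon_mul] at hi
  have hia : i ≠ a := by
    rintro rfl
    apply hi
    have e : i - (i - l) = l := by ring
    rw [e, mul_assoc, inv_mul_cancel₀ hfl, mul_one, sub_self]
  by_cases h1 : cf X i = 0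
  · have h2 : cf Z (i - (a - l)) ≠ 0 := by
      intro h2
      apply hi
      rw [h1, h2, map_zero, mul_zero, sub_zero]
    obtain ⟨h3, h4⟩ := hZ _ h2
    omega
  · obtain ⟨h3, h4⟩ := hX _ h1
    omega

/-- division with remainder in an arbitrary window: induction on the length of the support,
cancelling the top coefficient (if it is above the window) or the bottom one (if below). -/
theorem In_div_window (Z : Lam K) (l u : ℤ) (hlu : l ≤ u) (hZ : Supp Z l u) (hl : cf Z l ≠ 0)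
    (hu : cf Z u ≠ 0) (X : Lam K) (m : ℤ) :
    ∃ Q R, X = Q * Z + R ∧ Supp R m (m + (u - l) - 1) := by
  have main : ∀ (k : ℕ) (X : Lam K) (a b : ℤ), a ≤ m → m + (u - l) - 1 ≤ b →
      (m - a) + (b - (m + (u - l) - 1)) = k → Supp X a b →
      ∃ Q R, X = Q * Z + R ∧ Supp R m (m + (u - l) - 1) := by
    intro k
    induction k with
    | zero =>
      intro X a b h1 h2 h3 hX
      refine ⟨0, X, by simp, ?_⟩
      intro i hi
      obtain ⟨h4, h5⟩ := hX i hi
      have : ((0 : ℕ) : ℤ) = 0 := rfl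
      omega
    | succ k ih =>
      intro X a b h1 h2 h3 hX
      push_cast at h3
      by_cases hb : m + (u - l) ≤ b
      · obtain ⟨c, hc⟩ := In_top Z l u hlu hZ hu X m a b h1 hb hX
        obtain ⟨Q, R, hQ, hR⟩ := ih _ a (b - 1) h1 (by omega) (by omega) hc
        refine ⟨Q + mon (b - u) c, R, ?_, hR⟩
        rw [add_mul, add_right_comm, ← hQ, sub_add_cancel]
      · obtain ⟨c, hc⟩ := In_bot Z l u hlu hZ hl X a b (by omega) hX
        obtain ⟨Q, R, hQ, hR⟩ := ih _ (a + 1) b (by omega) h2 (by omega) hc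
        refine ⟨Q + mon (a - l) c, R, ?_, hR⟩
        rw [add_mul, add_right_comm, ← hQ, sub_add_cancel]
  by_cases hX : X = 0
  · refine ⟨0, 0, by simp [hX], ?_⟩
    intro i hi
    rw [cf_zero] at hi
    exact absurd rfl hi
  · obtain ⟨a, b, _, hS, _, _⟩ := exists_supp hX
    refine main ((m - min a m) + (max b (m + (u - l) - 1) - (m + (u - l) - 1))).toNat X (min a m)
      (max b (m + (u - l) - 1)) (min_le_right _ _) (le_max_right _ _) ?_ ?_
    · rw [Int.toNat_of_nonneg]
      have h1 := min_le_right a m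
      have h2 := le_max_right b (m + (u - l) - 1)
      omega
    · exact supp_mono hS (min_le_left _ _) (le_max_left _ _)


theorem In_cf_sum {ι : Type} (s : Finset ι) (F : ι → Lam K) (j : ℤ) :
    cf (∑ i ∈ s, F i) j = ∑ i ∈ s, cf (F i) j := by
  classical
  induction s using Finset.induction_on with
  | empty => simp [cf_zero]
  | insert i s hi ih => rw [Finset.sum_insert hi, Finset.sum_insert hi, cf_add, ih]

/-- polynomials of degree less than `w` -/
noncomputable def In_P (w : ℕ) (c : Fin w → K) : Lam K := ∑ i : Fin w, mon ((i : ℕ) : ℤ) (c i)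

theorem In_cf_P (w : ℕ) (c : Fin w → K) (i : Fin w) : cf (In_P w c) ((i : ℕ) : ℤ) = c i := by
  classical
  unfold In_P
  rw [In_cf_sum, Finset.sum_eq_single i]
  · rw [cf_mon, if_pos rfl]
  · intro j _ hj
    rw [cf_mon, if_neg]
    intro h
    apply hj
    apply Fin.ext
    exact_mod_cast h
  · intro h
    exact absurd (Finset.mem_univ _) h

theorem In_cf_P_out (w : ℕ) (c : Fin w → K) (j : ℤ) (hj : ¬ (0 ≤ j ∧ j < w)) :
    cf (In_P w c) j = 0 := by
  classical
  unfold In_P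
  rw [In_cf_sum]
  refine Finset.sum_eq_zero fun i _ => ?_
  rw [cf_mon, if_neg]
  intro h
  apply hj
  rw [← h]
  exact ⟨by positivity, by exact_mod_cast i.2⟩

theorem In_supp_P (w : ℕ) (c : Fin w → K) : Supp (In_P w c) 0 (w - 1) := by
  intro j hj
  by_contra h
  apply hj
  apply In_cf_P_out
  intro h2
  apply h
  omega

theorem In_eq_P {R : Lam K} {w : ℕ} (hR : Supp R 0 (w - 1)) :
    In_P w (fun i => cf R ((i : ℕ) : ℤ)) = R := by
  apply cf_ext
  intro j
  by_cases hj : 0 ≤ j ∧ j < w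
  · obtain ⟨n, rfl⟩ := Int.eq_ofNat_of_zero_le hj.1
    have hn : n < w := by exact_mod_cast hj.2
    exact In_cf_P w _ ⟨n, hn⟩
  · rw [In_cf_P_out _ _ _ hj]
    by_contra h
    have := hR j (fun h' => h h'.symm)
    apply hj
    omega

theorem In_card (w : ℕ) : Nat.card (Fin w → K) = (GD.q K ^ 3) ^ w := by
  rw [Nat.card_eq_fintype_card, Fintype.card_fun, GD.card, Fintype.card_fin]

theorem In_surj (Z : Lam K) (l u : ℤ) (hlu : l ≤ u) (hZ : Supp Z l u) (hl : cf Z l ≠ 0)
    (hu : cf Z u ≠ 0) : Function.Surjective fun c : Fin (u - l).toNat → K =>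
      (QuotientAddGroup.mk (In_P (u - l).toNat c) : Lam K ⧸ LI Z) := by
  intro y
  obtain ⟨X, rfl⟩ := QuotientAddGroup.mk_surjective y
  obtain ⟨Q, R, hX, hR⟩ := In_div_window Z l u hlu hZ hl hu X 0
  have hR' : Supp R 0 (((u - l).toNat : ℤ) - 1) := by
    rw [Int.toNat_of_nonneg (by omega)]
    simpa using hR
  refine ⟨fun i => cf R ((i : ℕ) : ℤ), ?_⟩
  simp only
  rw [In_eq_P hR']
  rw [QuotientAddGroup.eq, hX]
  rw [mem_LI]
  exact ⟨Q, by abel⟩

theorem In_finite (Z : Lam K) (hne : Z ≠ 0) : Finite (Lam K ⧸ LI Z) := by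
  obtain ⟨l, u, hlu, hS, hl, hu⟩ := exists_supp hne
  exact Finite.of_surjective _ (In_surj Z l u hlu hS hl hu)

theorem index_LI_le (Z : Lam K) (l u : ℤ) (hlu : l ≤ u) (hZ : Supp Z l u) (hne : Z ≠ 0) :
    (LI Z).index ≠ 0 ∧ (LI Z).index ≤ (GD.q K ^ 3) ^ ((u - l).toNat) := by
  have hfin := In_finite Z hne
  refine ⟨AddSubgroup.index_ne_zero_of_finite, ?_⟩
  obtain ⟨l', u', h1, h2, h3, hS, hl, hu⟩ := exists_supp_sub hne hZ
  have hc := Nat.card_le_card_of_surjective _ (In_surj Z l' u' h2 hS hl hu)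
  rw [In_card] at hc
  refine hc.trans ?_
  have hq : 0 < GD.q K := lt_of_lt_of_le (by norm_num) (GD.hq (K := K))
  exact Nat.pow_le_pow_right (by positivity) (by omega)

theorem index_LI_PI_pow (g : ℕ) : (GD.q K ^ 3) ^ (3 * g) ≤ (LI ((PI : Lam K) ^ g)).index := by
  have hne : (PI : Lam K) ^ g ≠ 0 := by
    intro h
    apply cf_PI_pow_top (K := K) g
    rw [h, cf_zero]
  have hfin := In_finite ((PI : Lam K) ^ g) hne
  rw [← In_card]
  refine Nat.card_le_card_of_injective (fun c : Fin (3 * g) → K =>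
    (QuotientAddGroup.mk (In_P (3 * g) c) : Lam K ⧸ LI ((PI : Lam K) ^ g))) ?_
  intro c c' hcc
  simp only at hcc
  rw [QuotientAddGroup.eq, mem_LI] at hcc
  obtain ⟨Q, hQ⟩ := hcc
  have hS : Supp (Q * (PI : Lam K) ^ g) 0 (((3 * g : ℕ) : ℤ) - 1) := by
    rw [hQ]
    have e : -In_P (3 * g) c + In_P (3 * g) c' = In_P (3 * g) c' - In_P (3 * g) c := by abel
    rw [e]
    exact supp_sub (In_supp_P _ _) (In_supp_P _ _)
  have hQ0 : Q = 0 := by
    by_contra hQne
    obtain ⟨a, b, hab, hSQ, ha, hb⟩ := exists_supp hQne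
    have h1 : cf (Q * (PI : Lam K) ^ g) (b + 3 * g) ≠ 0 := by
      rw [cf_mul_top hSQ (supp_PI_pow g)]
      exact mul_ne_zero hb fun h => cf_PI_pow_top (K := K) g ((fr_eq_zero _).1 h)
    have h2 : cf (Q * (PI : Lam K) ^ g) (a + 0) ≠ 0 := by
      rw [cf_mul_bot hSQ (supp_PI_pow g)]
      exact mul_ne_zero ha fun h => cf_PI_pow_bot (K := K) g ((fr_eq_zero _).1 h)
    have h3 := (hS _ h1).2
    have h4 := (hS _ h2).1
    push_cast at h3
    linarith
  rw [hQ0, zero_mul] at hQ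
  have hP : In_P (3 * g) c = In_P (3 * g) c' := by
    rw [← sub_eq_zero]
    have : In_P (3 * g) c - In_P (3 * g) c' = -(-In_P (3 * g) c + In_P (3 * g) c') := by abel
    rw [this, ← hQ, neg_zero]
  funext i
  rw [← In_cf_P (3 * g) c i, hP, In_cf_P]


theorem In2_LI_le_JJ (W : ℕ → Lam K) (g : ℕ) : LI (W g) ≤ JJ W g := by
  cases g with
  | zero => exact le_refl _
  | succ n => exact le_sup_right

theorem In2_LI0_le_JJ (W : ℕ → Lam K) (g : ℕ) : LI (W 0) ≤ JJ W g := by
  induction g with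
  | zero => exact le_refl _
  | succ n ih => exact ih.trans le_sup_left

/-- One step of the chain. -/
theorem In2_step (W : ℕ → Lam K) (g : ℕ) (R P : Lam K) (hR : Supp R 0 1) (hne : R ≠ 0)
    (h : R * W (g + 1) = P * W g) :
    (JJ W g).relIndex (JJ W (g + 1)) ≠ 0 ∧
      (JJ W g).relIndex (JJ W (g + 1)) ≤ (GD.q K ^ 3) := by
  have e1 : (JJ W g).relIndex (JJ W (g + 1)) =
      ((JJ W g).comap (AddMonoidHom.mulRight (W (g + 1)))).index := by
    rw [AddSubgroup.index_comap]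
    exact AddSubgroup.relIndex_sup_left _ _
  have hle : LI R ≤ (JJ W g).comap (AddMonoidHom.mulRight (W (g + 1))) := by
    intro X hX
    obtain ⟨Q, rfl⟩ := mem_LI.mp hX
    rw [AddSubgroup.mem_comap]
    apply In2_LI_le_JJ W g
    rw [mem_LI]
    refine ⟨Q * P, ?_⟩
    rw [AddMonoidHom.mulRight_apply, mul_assoc, mul_assoc, h]
  have h1 := index_LI_le R 0 1 (by norm_num) hR hne
  have h2 : ((1 : ℤ) - 0).toNat = 1 := rfl
  rw [h2, pow_one] at h1
  have hdvd := AddSubgroup.index_dvd_of_le hle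
  rw [e1]
  constructor
  · intro h0
    rw [h0] at hdvd
    exact h1.1 (Nat.eq_zero_of_zero_dvd hdvd)
  · exact (Nat.le_of_dvd (Nat.pos_of_ne_zero h1.1) hdvd).trans h1.2

/-- `R_i W_{i+1} = P_i W_i` and `Lam / Lam R_i` has at most `|K|` elements, so each step
`J_i ⊆ J_{i+1} = J_i + Lam W_{i+1}` has index at most `|K|`. -/
theorem relIndex_chain (W R P : ℕ → Lam K) (g : ℕ)
    (hR : ∀ i < g, Supp (R i) 0 1 ∧ R i ≠ 0)
    (hstep : ∀ i < g, R i * W (i + 1) = P i * W i) :
    (LI (W 0)).relIndex (JJ W g) ≠ 0 ∧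
      (LI (W 0)).relIndex (JJ W g) ≤ (GD.q K ^ 3) ^ g := by
  induction g with
  | zero =>
    have e : (LI (W 0)).relIndex (JJ W 0) = 1 := AddSubgroup.relIndex_self _
    rw [e]
    exact ⟨one_ne_zero, by simp⟩
  | succ n ih =>
    have ih' := ih (fun i hi => hR i (by omega)) (fun i hi => hstep i (by omega))
    have hs := In2_step W n (R n) (P n) (hR n (by omega)).1 (hR n (by omega)).2
      (hstep n (by omega))
    have e := AddSubgroup.relIndex_mul_relIndex (LI (W 0)) (JJ W n) (JJ W (n + 1))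
      (In2_LI0_le_JJ W n) le_sup_left
    rw [← e]
    refine ⟨mul_ne_zero ih'.1 hs.1, ?_⟩
    calc _ ≤ (GD.q K ^ 3) ^ n * (GD.q K ^ 3) := Nat.mul_le_mul ih'.2 hs.2
      _ = (GD.q K ^ 3) ^ (n + 1) := (pow_succ _ _).symm

end GV3
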