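import Pool.Agent.H258R2.GV.Alg

set_option linter.unusedSectionVars false
set_option linter.unusedVariables false

namespace GV3

open SkewMonoidAlgebra

variable {K : Type} [Field K] [Fintype K] [GD K]

/-! ### auxiliary lemmas -/

section RootAux

theorem Rt_fr_three_mul (k : ℤ) (a : K) : fr (3 * k) a = a := by
  induction k using Int.induction_on with
  | zero => simp [fr_zero]
  | succ n ih => rw [mul_add, mul_one, fr_add_three, ih]
  | pred n ih =>
    have h : (3 * (-(n : ℤ) - 1)) + 3 = 3 * (-(n : ℤ)) := by ring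
    rw [← fr_add_three, h, ih]

theorem Rt_fr_mod {i k : ℤ} (h : (3 : ℤ) ∣ i - k) (a : K) : fr i a = fr k a := by
  obtain ⟨m, hm⟩ := h
  have : i = k + 3 * m := by omega
  rw [this, ← fr_fr, Rt_fr_three_mul]

theorem Rt_cf_sum (S : Finset ℕ) (F : ℕ → Lam K) (i : ℤ) :
    cf (∑ k ∈ S, F k) i = ∑ k ∈ S, cf (F k) i := by
  classical
  induction S using Finset.induction_on with
  | empty => simp [cf_zero]
  | insert a S ha ih => rw [Finset.sum_insert ha, Finset.sum_insert ha, cf_add, ih]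

theorem Rt_expand (n : ℕ) (Y : Lam K) (hY : Supp Y 0 (n - 1)) :
    Y = ∑ i ∈ Finset.range n, mon (i : ℤ) (cf Y i) := by
  apply cf_ext
  intro i
  rw [Rt_cf_sum]
  simp only [cf_mon]
  by_cases hi : cf Y i = 0
  · rw [hi]
    symm
    apply Finset.sum_eq_zero
    intro k _
    split_ifs with h
    · rw [h, hi]
    · rfl
  · obtain ⟨h0, h1⟩ := hY i hi
    obtain ⟨m, rfl⟩ : ∃ m : ℕ, i = m := ⟨i.toNat, by omega⟩
    rw [Finset.sum_eq_single m]
    · simp
    · intro k _ hk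
      rw [if_neg]
      intro h
      exact hk (by exact_mod_cast h)
    · intro h
      exfalso
      apply h
      rw [Finset.mem_range]
      omega

theorem Rt_sum_range_three {M : Type*} [AddCommMonoid M] (n : ℕ) (f : ℕ → M) :
    ∑ i ∈ Finset.range (3 * n), f i =
      ∑ k ∈ Finset.range n, ∑ e ∈ Finset.range 3, f (3 * k + e) := by
  induction n with
  | zero => simp
  | succ n ih =>
    rw [show 3 * (n + 1) = 3 * n + 3 by ring, Finset.sum_range_add, ih, Finset.sum_range_succ _ n]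

variable {L : Type} [Field L] (j : K →+* L) (s : L) (hs : s ≠ 0)

/-- `s ^ (m / 3)` if `3 ∣ m` and `0` otherwise. -/
noncomputable def Rt_e (s : L) (m : ℤ) : L :=
  open Classical in if (3 : ℤ) ∣ m then s ^ (m / 3) else 0

theorem Rt_e_mul (s : L) (k : ℤ) : Rt_e s (3 * k) = s ^ k := by
  unfold Rt_e
  rw [if_pos (Dvd.intro _ rfl)]
  congr 1
  omega

theorem Rt_e_not (s : L) {m : ℤ} (h : ¬ (3 : ℤ) ∣ m) : Rt_e s m = 0 := by
  unfold Rt_e
  rw [if_neg h]

include hs in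
theorem Rt_e_add (m : ℤ) : Rt_e s (m + 3) = Rt_e s m * s := by
  by_cases h : (3 : ℤ) ∣ m
  · obtain ⟨k, rfl⟩ := h
    rw [show 3 * k + 3 = 3 * (k + 1) by ring, Rt_e_mul, Rt_e_mul, zpow_add_one₀ hs]
  · rw [Rt_e_not s h, Rt_e_not s (by omega), zero_mul]

include hs in
theorem Rt_e_sub (m : ℤ) : Rt_e s (m - 3) = Rt_e s m * s⁻¹ := by
  by_cases h : (3 : ℤ) ∣ m
  · obtain ⟨k, rfl⟩ := h
    rw [show 3 * k - 3 = 3 * (k - 1) by ring, Rt_e_mul, Rt_e_mul, zpow_sub_one₀ hs]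
  · rw [Rt_e_not s h, Rt_e_not s (by omega), zero_mul]

theorem Rt_T_entry (i : ℤ) (r c : Fin 3) :
    ((rhoTU s hs ^ i : (Matrix (Fin 3) (Fin 3) L)ˣ) : Matrix (Fin 3) (Fin 3) L) r c =
      Rt_e s (((r : ℕ) : ℤ) + i - ((c : ℕ) : ℤ)) := by
  induction i using Int.induction_on generalizing c with
  | zero =>
    rw [zpow_zero, Units.val_one, Matrix.one_apply]
    by_cases h : r = c
    · subst h
      rw [if_pos rfl, show (((r : ℕ) : ℤ) + 0 - ((r : ℕ) : ℤ)) = 3 * 0 by ring, Rt_e_mul, zpow_zero]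
    · rw [if_neg h, Rt_e_not]
      have h1 := r.2
      have h2 := c.2
      have h3 : (r : ℕ) ≠ (c : ℕ) := fun hh => h (Fin.ext hh)
      omega
  | succ n ih =>
    have e : ((rhoTU s hs ^ ((n : ℤ) + 1) : (Matrix (Fin 3) (Fin 3) L)ˣ) :
        Matrix (Fin 3) (Fin 3) L)
        = ((rhoTU s hs ^ (n : ℤ) : (Matrix (Fin 3) (Fin 3) L)ˣ) : Matrix (Fin 3) (Fin 3) L) *
          rhoT s := by
      rw [zpow_add_one, Units.val_mul]
      rfl
    rw [e, Matrix.mul_apply, Fin.sum_univ_three]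
    fin_cases c
    · simp only [ih, rhoT]
      simp
      rw [← Rt_e_add s hs]
      congr 1
      ring
    · simp only [ih, rhoT]
      simp
      congr 1
      ring
    · simp only [ih, rhoT]
      simp
      congr 1
      ring
  | pred n ih =>
    have e : ((rhoTU s hs ^ (-(n : ℤ) - 1) : (Matrix (Fin 3) (Fin 3) L)ˣ) :
        Matrix (Fin 3) (Fin 3) L)
        = ((rhoTU s hs ^ (-(n : ℤ)) : (Matrix (Fin 3) (Fin 3) L)ˣ) : Matrix (Fin 3) (Fin 3) L) *
          rhoTi s := by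
      rw [zpow_sub_one, Units.val_mul]
      rfl
    rw [e, Matrix.mul_apply, Fin.sum_univ_three]
    fin_cases c
    · simp only [ih, rhoTi]
      simp
      congr 1
      ring
    · simp only [ih, rhoTi]
      simp
      congr 1
      ring
    · simp only [ih, rhoTi]
      simp
      rw [← Rt_e_sub s hs]
      congr 1
      ring

theorem Rt_rho_mon (i : ℤ) (a : K) (r c : Fin 3) :
    rho j s hs (mon i a) r c =
      j (fr ((r : ℕ) : ℤ) a) * Rt_e s (((r : ℕ) : ℤ) + i - ((c : ℕ) : ℤ)) := by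
  rw [rho_mon, Matrix.mul_apply]
  simp only [rhoK, RingHom.coe_mk, MonoidHom.coe_mk, OneHom.coe_mk, Matrix.diagonal_apply]
  rw [Finset.sum_eq_single r]
  · rw [if_pos rfl, Rt_T_entry]
  · intro b _ hb
    rw [if_neg (Ne.symm hb), zero_mul]
  · intro h
    exact absurd (Finset.mem_univ _) h

/-- vanishing of `rho Y` in terms of the coefficients -/
theorem Rt_key1 (n : ℕ) (Y : Lam K) (hY : Supp Y 0 ((3 * n : ℕ) - 1))
    (h1 : rho j s hs Y = 0) (r e : ℕ) (hr : r < 3) (he : e < 3) :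
    ∑ k ∈ Finset.range n, j (fr (r : ℤ) (cf Y ((3 * k + e : ℕ) : ℤ))) * s ^ k = 0 := by
  have hexp := Rt_expand (3 * n) Y hY
  have h2 : rho j s hs Y ⟨r, hr⟩ ⟨(r + e) % 3, Nat.mod_lt _ (by norm_num)⟩ = 0 := by
    rw [h1]; rfl
  rw [hexp, _root_.map_sum, Matrix.sum_apply, Rt_sum_range_three] at h2
  simp only [Rt_rho_mon] at h2
  have h3 : ∀ k ∈ Finset.range n, ∑ e' ∈ Finset.range 3,
      j (fr (r : ℤ) (cf Y ((3 * k + e' : ℕ) : ℤ))) *
        Rt_e s ((r : ℤ) + ((3 * k + e' : ℕ) : ℤ) - (((r + e) % 3 : ℕ) : ℤ)) =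
      (j (fr (r : ℤ) (cf Y ((3 * k + e : ℕ) : ℤ))) * s ^ k) * s ^ ((r + e) / 3) := by
    intro k _
    rw [Finset.sum_eq_single e]
    · have h4 : (r : ℤ) + ((3 * k + e : ℕ) : ℤ) - (((r + e) % 3 : ℕ) : ℤ) =
          3 * ((k + (r + e) / 3 : ℕ) : ℤ) := by
        push_cast
        omega
      rw [h4, Rt_e_mul, zpow_natCast, pow_add]
      ring
    · intro e' he' hne
      rw [Finset.mem_range] at he'
      rw [Rt_e_not, mul_zero]
      push_cast
      omega
    · intro h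
      exact absurd (Finset.mem_range.mpr he) h
  rw [Finset.sum_congr rfl h3, ← Finset.sum_mul] at h2
  rcases mul_eq_zero.mp h2 with h | h
  · exact h
  · exact absurd h (pow_ne_zero _ hs)

/-- vanishing of `rho (st Y)` in terms of the coefficients -/
theorem Rt_key2 (n : ℕ) (Y : Lam K) (hY : Supp Y 0 ((3 * n : ℕ) - 1))
    (h1 : rho j s hs (st Y) = 0) (r' e : ℕ) (hr' : r' < 3) (he : e < 3) :
    ∑ k ∈ Finset.range n, j (fr (r' : ℤ) (cf Y ((3 * k + e : ℕ) : ℤ))) * (s⁻¹) ^ k = 0 := by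
  have hexp := Rt_expand (3 * n) Y hY
  obtain ⟨r, hr, hrr⟩ : ∃ r : ℕ, r < 3 ∧ (r : ℤ) = ((r' + e) % 3 : ℕ) :=
    ⟨(r' + e) % 3, Nat.mod_lt _ (by norm_num), rfl⟩
  have h2 : rho j s hs (st Y) ⟨r, hr⟩ ⟨(r + 3 - e) % 3, Nat.mod_lt _ (by norm_num)⟩ = 0 := by
    rw [h1]; rfl
  rw [hexp, _root_.map_sum, _root_.map_sum, Matrix.sum_apply, Rt_sum_range_three] at h2
  simp only [st_mon, Rt_rho_mon, fr_fr] at h2
  have h3 : ∀ k ∈ Finset.range n, ∑ e' ∈ Finset.range 3,
      j (fr ((r : ℤ) + -((3 * k + e' : ℕ) : ℤ)) (cf Y ((3 * k + e' : ℕ) : ℤ))) *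
        Rt_e s ((r : ℤ) + -((3 * k + e' : ℕ) : ℤ) - (((r + 3 - e) % 3 : ℕ) : ℤ)) =
      (j (fr (r' : ℤ) (cf Y ((3 * k + e : ℕ) : ℤ))) * (s⁻¹) ^ k) *
        s ^ (((r : ℤ) - e - (((r + 3 - e) % 3 : ℕ) : ℤ)) / 3) := by
    intro k _
    rw [Finset.sum_eq_single e]
    · have h4 : (r : ℤ) + -((3 * k + e : ℕ) : ℤ) - (((r + 3 - e) % 3 : ℕ) : ℤ) =
          3 * (-(k : ℤ) + ((r : ℤ) - e - (((r + 3 - e) % 3 : ℕ) : ℤ)) / 3) := by
        push_cast
        omega
      have h5 : fr ((r : ℤ) + -((3 * k + e : ℕ) : ℤ)) (cf Y ((3 * k + e : ℕ) : ℤ)) =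
          fr (r' : ℤ) (cf Y ((3 * k + e : ℕ) : ℤ)) := by
        apply Rt_fr_mod
        push_cast
        omega
      rw [h4, h5, Rt_e_mul, zpow_add₀ hs, zpow_neg, zpow_natCast, inv_pow]
      ring
    · intro e' he' hne
      rw [Finset.mem_range] at he'
      rw [Rt_e_not, mul_zero]
      push_cast
      omega
    · intro h
      exact absurd (Finset.mem_range.mpr he) h
  rw [Finset.sum_congr rfl h3, ← Finset.sum_mul] at h2
  rcases mul_eq_zero.mp h2 with h | h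
  · exact h
  · exact absurd h (zpow_ne_zero _ hs)

include j in
/-- the Frobenius is additive on `L` -/
theorem Rt_sum_pow (i n : ℕ) (f : ℕ → L) :
    (∑ k ∈ Finset.range n, f k) ^ (GD.q K ^ i) = ∑ k ∈ Finset.range n, f k ^ (GD.q K ^ i) := by
  obtain ⟨p, hp⟩ := CharP.exists K
  obtain ⟨m, hpp, hm⟩ := FiniteField.card K p
  have : Fact p.Prime := ⟨hpp⟩
  have h1 : GD.q K ∣ p ^ (m : ℕ) := by
    rw [← hm, GD.card (K := K)]
    exact dvd_pow_self _ (by norm_num)
  obtain ⟨a, _, ha⟩ := (Nat.dvd_prime_pow hpp).mp h1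
  have : CharP L p := charP_of_injective_ringHom j.injective p
  rw [ha, ← pow_mul]
  exact sum_pow_char_pow p (a * i) (Finset.range n) f

/-- the Galois orbit of a root -/
theorem Rt_orbit (n : ℕ) (Y : Lam K) (z : L) (e : ℕ)
    (h : ∀ r : ℕ, r < 3 →
      ∑ k ∈ Finset.range n, j (fr (r : ℤ) (cf Y ((3 * k + e : ℕ) : ℤ))) * z ^ k = 0) (i : ℕ) :
    ∑ k ∈ Finset.range n, j (cf Y ((3 * k + e : ℕ) : ℤ)) * (z ^ (GD.q K ^ i)) ^ k = 0 := by
  have h1 := h ((3 - i % 3) % 3) (Nat.mod_lt _ (by norm_num))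
  have h2 : (∑ k ∈ Finset.range n,
      j (fr (((3 - i % 3) % 3 : ℕ) : ℤ) (cf Y ((3 * k + e : ℕ) : ℤ))) * z ^ k) ^ (GD.q K ^ i) =
      0 ^ (GD.q K ^ i) := by rw [h1]
  rw [Rt_sum_pow (K := K) j] at h2
  rw [zero_pow (pow_ne_zero _ (by have := GD.hq (K := K); omega))] at h2
  rw [← h2]
  apply Finset.sum_congr rfl
  intro k _
  rw [mul_pow, ← map_pow, ← fr_nat, fr_fr]
  congr 1
  · rw [Rt_fr_mod (i := (i : ℤ) + (((3 - i % 3) % 3 : ℕ) : ℤ)) (k := 0), fr_zero]
    omega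
  · rw [← pow_mul, ← pow_mul, mul_comm]

end RootAux


section
variable {L : Type} [Field L] (j : K →+* L) (s : L) (hs : s ≠ 0)

theorem rho_PI : rho j s hs (PI : Lam K) = (1 - s) • (1 : Matrix (Fin 3) (Fin 3) L) := by
  ext r k
  rw [PI, map_sub, Matrix.sub_apply, Rt_rho_mon, Rt_rho_mon, map_one, map_one, one_mul, one_mul,
    Matrix.smul_apply, smul_eq_mul, Matrix.one_apply]
  by_cases h : r = k
  · subst h
    rw [if_pos rfl, show (((r : ℕ) : ℤ) + 3 - ((r : ℕ) : ℤ)) = 3 * 1 by ring,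
      show (((r : ℕ) : ℤ) + 0 - ((r : ℕ) : ℤ)) = 3 * 0 by ring, Rt_e_mul, Rt_e_mul,
      zpow_one, zpow_zero]
    ring
  · have h1 := r.2
    have h2 := k.2
    have h3 : (r : ℕ) ≠ (k : ℕ) := fun hh => h (Fin.ext hh)
    rw [if_neg h, Rt_e_not, Rt_e_not]
    · ring
    · omega
    · omega

theorem rho_st_PI : rho j s hs (st (PI : Lam K)) = (1 - s⁻¹) • (1 : Matrix (Fin 3) (Fin 3) L) := by
  ext r k
  rw [st_PI, map_sub, Matrix.sub_apply, Rt_rho_mon, Rt_rho_mon, map_one, map_one, one_mul,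
    one_mul, Matrix.smul_apply, smul_eq_mul, Matrix.one_apply]
  by_cases h : r = k
  · subst h
    rw [if_pos rfl, show (((r : ℕ) : ℤ) + -3 - ((r : ℕ) : ℤ)) = 3 * (-1) by ring,
      show (((r : ℕ) : ℤ) + 0 - ((r : ℕ) : ℤ)) = 3 * 0 by ring, Rt_e_mul, Rt_e_mul,
      zpow_neg_one, zpow_zero]
    ring
  · have h1 := r.2
    have h2 := k.2
    have h3 : (r : ℕ) ≠ (k : ℕ) := fun hh => h (Fin.ext hh)
    rw [if_neg h, Rt_e_not, Rt_e_not]
    · ring
    · omega
    · omega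

theorem Rt_rho_Nn (a : K) (r c : Fin 3) : rho j s hs (Nn a) r c =
    j (fr ((r : ℕ) : ℤ) a) * Rt_e s (((r : ℕ) : ℤ) + 0 - ((c : ℕ) : ℤ)) -
    j (fr ((r : ℕ) : ℤ) ((fr 1 a)⁻¹)) * Rt_e s (((r : ℕ) : ℤ) + 1 - ((c : ℕ) : ℤ)) := by
  rw [Nn, map_sub, Matrix.sub_apply, Rt_rho_mon, Rt_rho_mon]

theorem Rt_e0 : Rt_e s 0 = 1 := by
  have := Rt_e_mul s 0
  simpa using this

theorem Rt_e3 : Rt_e s 3 = s := by
  have := Rt_e_mul s 1
  simpa using this

theorem det_rho_Nn {a : K} (ha : IsA a) : (rho j s hs (Nn a)).det = 1 - s := by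
  have e00 : rho j s hs (Nn a) 0 0 = j a := by
    rw [Rt_rho_Nn]
    simp [Rt_e0, Rt_e_not s (m := 1) (by omega), fr_zero]
  have e01 : rho j s hs (Nn a) 0 1 = - j ((fr 1 a)⁻¹) := by
    rw [Rt_rho_Nn]
    simp [Rt_e0, Rt_e_not s (m := -1) (by omega), fr_zero]
  have e02 : rho j s hs (Nn a) 0 2 = 0 := by
    rw [Rt_rho_Nn]
    simp [Rt_e_not s (m := -1) (by omega), Rt_e_not s (m := -2) (by omega)]
  have e10 : rho j s hs (Nn a) 1 0 = 0 := by
    rw [Rt_rho_Nn]
    simp [Rt_e_not s (m := 1) (by omega), Rt_e_not s (m := 2) (by omega)]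
  have e11 : rho j s hs (Nn a) 1 1 = j (fr 1 a) := by
    rw [Rt_rho_Nn]
    simp [Rt_e0, Rt_e_not s (m := 1) (by omega)]
  have e12 : rho j s hs (Nn a) 1 2 = - j (fr 1 ((fr 1 a)⁻¹)) := by
    rw [Rt_rho_Nn]
    simp [Rt_e0, Rt_e_not s (m := -1) (by omega)]
  have e20 : rho j s hs (Nn a) 2 0 = - (j (fr 2 ((fr 1 a)⁻¹)) * s) := by
    rw [Rt_rho_Nn]
    simp [Rt_e3, Rt_e_not s (m := 2) (by omega)]
  have e21 : rho j s hs (Nn a) 2 1 = 0 := by
    rw [Rt_rho_Nn]
    simp [Rt_e_not s (m := 1) (by omega), Rt_e_not s (m := 2) (by omega)]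
  have e22 : rho j s hs (Nn a) 2 2 = j (fr 2 a) := by
    rw [Rt_rho_Nn]
    simp [Rt_e0, Rt_e_not s (m := 1) (by omega)]
  rw [Matrix.det_fin_three, e00, e01, e02, e10, e11, e12, e20, e21, e22]
  have h1 : j a * j (fr 1 a) * j (fr 2 a) = 1 := by
    rw [← map_mul, ← map_mul]
    have := ha.nrm_eq
    unfold nrm at this
    rw [this, map_one]
  have h2 : j ((fr 1 a)⁻¹) * j (fr 1 ((fr 1 a)⁻¹)) * j (fr 2 ((fr 1 a)⁻¹)) = 1 := by
    rw [← map_mul, ← map_mul, map_inv₀, map_inv₀, fr_fr, fr_fr, ← mul_inv, ← mul_inv]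
    have h3 : fr 1 a * fr (1 + 1) a * fr (2 + 1) a = 1 := by
      have h4 : fr (1 + 1) a = fr 1 (fr 1 a) := by rw [fr_fr]
      have h5 : fr (2 + 1) a = fr 1 (fr 2 a) := by rw [fr_fr]; rfl
      rw [h4, h5, ← map_mul, ← map_mul]
      have := ha.nrm_eq
      unfold nrm at this
      rw [this, map_one]
    rw [h3, inv_one, map_one]
  linear_combination h1 - s * h2

theorem rho_Nn_inj {a b : K} (h : rho j s hs (Nn a) = rho j s hs (Nn b)) : a = b := by
  have h0 : rho j s hs (Nn a) 0 0 = rho j s hs (Nn b) 0 0 := by rw [h]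
  rw [Rt_rho_Nn, Rt_rho_Nn] at h0
  simp [Rt_e0, Rt_e_not s (m := 1) (by omega), fr_zero] at h0
  exact j.injective h0

theorem s_ne_one [Fintype L] (D : ℕ) (hD : 0 < D) (h3 : 3 ∣ D)
    (hord : orderOf s = GD.q K ^ D - 1) : 1 - s ≠ 0 := by
  intro h
  have h1 : s = 1 := (sub_eq_zero.mp h).symm
  rw [h1, orderOf_one] at hord
  have hD3 : 3 ≤ D := Nat.le_of_dvd hD h3
  have hq := GD.hq (K := K)
  have h2 : 2 ^ 3 ≤ GD.q K ^ D :=
    le_trans (Nat.pow_le_pow_left hq 3) (Nat.pow_le_pow_right (by omega) hD3)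
  omega

/-- distinctness of the exponents -/
theorem Rt_exp_ne (q D i k : ℕ) (hq : 2 ≤ q) (hD : 3 ≤ D) (hi : i < D) (hk : k < D) :
    q ^ i + q ^ k + 1 ≠ q ^ D := by
  intro h
  obtain ⟨E, rfl⟩ : ∃ E, D = E + 1 := ⟨D - 1, by omega⟩
  have hi' : q ^ i ≤ q ^ E := Nat.pow_le_pow_right (by omega) (by omega)
  have hk' : q ^ k ≤ q ^ E := Nat.pow_le_pow_right (by omega) (by omega)
  have hE : 2 ^ 2 ≤ q ^ E := le_trans (Nat.pow_le_pow_left hq 2)
    (Nat.pow_le_pow_right (by omega) (by omega))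
  rw [pow_succ] at h
  rcases Nat.lt_or_ge 2 q with h3 | h3
  · have : q ^ E * 3 ≤ q ^ E * q := Nat.mul_le_mul_left _ h3
    omega
  · have h2 : q = 2 := by omega
    subst h2
    rcases Nat.eq_zero_or_pos i with rfl | hi0
    · rw [pow_zero] at h
      omega
    · rcases Nat.eq_zero_or_pos k with rfl | hk0
      · rw [pow_zero] at h
        omega
      · obtain ⟨i', rfl⟩ : ∃ i', i = i' + 1 := ⟨i - 1, by omega⟩
        obtain ⟨k', rfl⟩ : ∃ k', k = k' + 1 := ⟨k - 1, by omega⟩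
        rw [pow_succ, pow_succ] at h
        omega

/-- an element supported in a window of length `6 D` which vanishes at `s` together with its
conjugate is zero. -/
theorem root_window [Fintype L] (D : ℕ) (hcard : Fintype.card L = GD.q K ^ D) (h3 : 3 ∣ D)
    (hD : 0 < D) (hord : orderOf s = GD.q K ^ D - 1) (Y : Lam K) (hY : Supp Y 0 (6 * D - 1))
    (h1 : rho j s hs Y = 0) (h2 : rho j s hs (st Y) = 0) : Y = 0 := by
  have hq := GD.hq (K := K)
  have hD4 : 3 ≤ D := Nat.le_of_dvd hD h3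
  have hY' : Supp Y 0 ((3 * (2 * D) : ℕ) - 1) := by
    have : (((3 * (2 * D) : ℕ) : ℤ) - 1) = 6 * D - 1 := by push_cast; ring
    rw [this]
    exact hY
  have hpos : ∀ i, 1 ≤ GD.q K ^ i := fun i => Nat.one_le_pow _ _ (by omega)
  have hlt : ∀ i, i < D → GD.q K ^ i + 1 < GD.q K ^ D := by
    intro i hi
    obtain ⟨E, rfl⟩ : ∃ E, D = E + 1 := ⟨D - 1, by omega⟩
    have hi' : GD.q K ^ i ≤ GD.q K ^ E := Nat.pow_le_pow_right (by omega) (by omega)
    have hE : 2 ^ 2 ≤ GD.q K ^ E := le_trans (Nat.pow_le_pow_left hq 2)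
      (Nat.pow_le_pow_right (by omega) (by omega))
    rw [pow_succ]
    have : GD.q K ^ E * 2 ≤ GD.q K ^ E * GD.q K := Nat.mul_le_mul_left _ hq
    omega
  -- the injective family of roots
  let ex : Fin D ⊕ Fin D → ℕ := Sum.elim (fun i => GD.q K ^ (i : ℕ))
    (fun i => GD.q K ^ D - 1 - GD.q K ^ (i : ℕ))
  have hexlt : ∀ t, ex t < orderOf s := by
    intro t
    rw [hord]
    rcases t with t | t
    · have := hlt t t.2
      simp only [ex, Sum.elim_inl]
      omega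
    · have := hlt t t.2
      have := hpos (t : ℕ)
      simp only [ex, Sum.elim_inr]
      omega
  have hexinj : Function.Injective ex := by
    intro a b hab
    have hpi : Function.Injective (fun i : ℕ => GD.q K ^ i) := Nat.pow_right_injective hq
    rcases a with a | a <;> rcases b with b | b
    · simp only [ex, Sum.elim_inl] at hab
      rw [Fin.ext (hpi hab)]
    · exfalso
      simp only [ex, Sum.elim_inl, Sum.elim_inr] at hab
      have e1 := hlt b b.2
      have e2 := Rt_exp_ne (GD.q K) D a b hq hD4 a.2 b.2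
      omega
    · exfalso
      simp only [ex, Sum.elim_inl, Sum.elim_inr] at hab
      have e1 := hlt a a.2
      have e2 := Rt_exp_ne (GD.q K) D a b hq hD4 a.2 b.2
      omega
    · simp only [ex, Sum.elim_inr] at hab
      have e1 := hlt a a.2
      have e2 := hlt b b.2
      have e3 : GD.q K ^ (a : ℕ) = GD.q K ^ (b : ℕ) := by omega
      rw [Fin.ext (hpi e3)]
  have hfinj : Function.Injective (fun t => s ^ ex t) := by
    intro a b hab
    apply hexinj
    exact pow_injOn_Iio_orderOf (hexlt a) (hexlt b) hab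
  -- all the coefficients vanish
  have hcoef : ∀ e, e < 3 → ∀ k, k < 2 * D → cf Y ((3 * k + e : ℕ) : ℤ) = 0 := by
    intro e he
    let P : Polynomial L := ∑ k ∈ Finset.range (2 * D),
      Polynomial.C (j (cf Y ((3 * k + e : ℕ) : ℤ))) * Polynomial.X ^ k
    have heval : ∀ z : L, P.eval z =
        ∑ k ∈ Finset.range (2 * D), j (cf Y ((3 * k + e : ℕ) : ℤ)) * z ^ k := by
      intro z
      simp only [P, Polynomial.eval_finsetSum, Polynomial.eval_mul, Polynomial.eval_C,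
        Polynomial.eval_pow, Polynomial.eval_X]
    have hP : P = 0 := by
      apply Polynomial.eq_zero_of_natDegree_lt_card_of_eval_eq_zero P hfinj
      · intro t
        rw [heval]
        rcases t with t | t
        · exact Rt_orbit j (2 * D) Y s e
            (fun r hr => Rt_key1 j s hs (2 * D) Y hY' h1 r e hr he) t
        · have e1 : s ^ (GD.q K ^ D - 1 - GD.q K ^ (t : ℕ)) = (s⁻¹) ^ (GD.q K ^ (t : ℕ)) := by
            rw [inv_pow]
            refine (inv_eq_of_mul_eq_one_right ?_).symm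
            rw [← pow_add]
            have e2 := hlt t t.2
            have e3 : GD.q K ^ (t : ℕ) + (GD.q K ^ D - 1 - GD.q K ^ (t : ℕ)) = orderOf s := by
              rw [hord]
              omega
            rw [e3, pow_orderOf_eq_one]
          show ∑ k ∈ Finset.range (2 * D), j (cf Y ((3 * k + e : ℕ) : ℤ)) *
            (s ^ (GD.q K ^ D - 1 - GD.q K ^ (t : ℕ))) ^ k = 0
          rw [e1]
          exact Rt_orbit j (2 * D) Y s⁻¹ e
            (fun r hr => Rt_key2 j s hs (2 * D) Y hY' h2 r e hr he) t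
      · have hdeg : P.natDegree ≤ 2 * D - 1 := by
          apply Polynomial.natDegree_sum_le_of_forall_le
          intro k hk
          rw [Finset.mem_range] at hk
          exact le_trans (Polynomial.natDegree_C_mul_X_pow_le _ _) (by omega)
        rw [Fintype.card_sum, Fintype.card_fin]
        omega
    intro k hk
    have h5 : P.coeff k = j (cf Y ((3 * k + e : ℕ) : ℤ)) := by
      simp only [P, Polynomial.finsetSum_coeff, Polynomial.coeff_C_mul, Polynomial.coeff_X_pow]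
      rw [Finset.sum_eq_single k]
      · simp
      · intro b _ hb
        rw [if_neg (Ne.symm hb), mul_zero]
      · intro h
        exact absurd (Finset.mem_range.mpr hk) h
    rw [hP, Polynomial.coeff_zero] at h5
    apply j.injective
    rw [← h5, map_zero]
  -- conclusion
  apply cf_ext
  intro i
  rw [cf_zero]
  by_contra hne
  obtain ⟨h0, h7⟩ := hY i hne
  obtain ⟨m, rfl⟩ : ∃ m : ℕ, i = m := ⟨i.toNat, by omega⟩
  apply hne
  have h8 := hcoef (m % 3) (Nat.mod_lt _ (by norm_num)) (m / 3) (by omega)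
  rw [Nat.div_add_mod] at h8
  exact h8


end

end GV3
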