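import Pool.Agent.H258R2.GV.In
import Pool.Agent.H258R2.GV.Rt

set_option linter.unusedSectionVars false
set_option linter.unusedVariables false

namespace GV3

open SkewMonoidAlgebra

variable {K : Type} [Field K] [Fintype K] [GD K]

/-- the element with coefficients `c 0, …, c (n-1)`. -/
noncomputable def Iq_win (n : ℕ) (c : Fin n → K) : Lam K := ∑ i : Fin n, mon (i : ℤ) (c i)

theorem Iq_cf_win (n : ℕ) (c : Fin n → K) (k : Fin n) : cf (Iq_win n c) (k : ℤ) = c k := by
  have h : ∀ (s : Finset (Fin n)), cf (∑ i ∈ s, mon (i : ℤ) (c i)) (k : ℤ) =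
      ∑ i ∈ s, if (i : ℤ) = (k : ℤ) then c i else 0 := by
    classical
    intro s
    induction s using Finset.induction_on with
    | empty => simp [cf_zero]
    | insert a s ha ih =>
      rw [Finset.sum_insert ha, Finset.sum_insert ha, cf_add, ih, cf_mon]
  rw [Iq_win, h]
  have h2 : ∀ i : Fin n, (if (i : ℤ) = (k : ℤ) then c i else 0) = if i = k then c i else 0 := by
    intro i
    by_cases hi : i = k
    · subst hi; simp
    · rw [if_neg hi, if_neg]
      intro h3
      apply hi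
      apply Fin.ext
      exact_mod_cast h3
  rw [Finset.sum_congr rfl (fun i _ => h2 i)]
  simp

theorem Iq_win_sub (n : ℕ) (c c' : Fin n → K) :
    Iq_win n c - Iq_win n c' = Iq_win n (c - c') := by
  simp only [Iq_win]
  rw [← Finset.sum_sub_distrib]
  refine Finset.sum_congr rfl fun i _ => ?_
  rw [Pi.sub_apply, sub_eq_add_neg, sub_eq_add_neg, mon_add, mon_neg]

theorem Iq_supp_win (n : ℕ) (c : Fin n → K) : Supp (Iq_win n c) 0 (n - 1) := by
  have h : ∀ (s : Finset (Fin n)), Supp (∑ i ∈ s, mon (i : ℤ) (c i)) 0 ((n : ℤ) - 1) := by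
    classical
    intro s
    induction s using Finset.induction_on with
    | empty => simpa using supp_zero 0 ((n : ℤ) - 1)
    | insert a s ha ih =>
      rw [Finset.sum_insert ha]
      refine supp_add (supp_mono (supp_mon _ _) ?_ ?_) ih
      · exact_mod_cast Nat.zero_le _
      · have := a.2
        omega
  exact h _

section
variable {L : Type} [Field L] [Fintype L] (j : K →+* L) (s : L) (hs : s ≠ 0)

/-- `X ↦ (rho X, rho X*)`. -/
noncomputable def Iq_phi : Lam K →+ Matrix (Fin 3) (Fin 3) L × Matrix (Fin 3) (Fin 3) L :=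
  AddMonoidHom.prod ((rho j s hs : Lam K →+* Matrix (Fin 3) (Fin 3) L) : Lam K →+ _)
    (((rho j s hs : Lam K →+* Matrix (Fin 3) (Fin 3) L) : Lam K →+ _).comp st)

theorem Iq_phi_apply (X : Lam K) :
    Iq_phi j s hs X = (rho j s hs X, rho j s hs (st X)) := rfl

theorem Iq_PI_pow_comm (g : ℕ) (X : Lam K) : PI ^ g * X = X * PI ^ g := by
  have : Commute (PI : Lam K) X := PI_comm X
  exact this.pow_left g

/-- `st` of a power -/
theorem Iq_st_pow (g : ℕ) (X : Lam K) : st (X ^ g) = (st X) ^ g := by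
  induction g with
  | zero => rw [pow_zero, pow_zero, st_one]
  | succ n ih => rw [pow_succ, st_mul, ih, pow_succ']

theorem Iq_phi_mul (g : ℕ) (X : Lam K) :
    Iq_phi j s hs (X * PI ^ g) =
      ((1 - s) ^ g • rho j s hs X, (1 - s⁻¹) ^ g • rho j s hs (st X)) := by
  rw [Iq_phi_apply, st_mul, Iq_st_pow, ← Iq_PI_pow_comm, map_mul, map_mul, map_pow, map_pow,
    rho_PI, rho_st_PI, smul_pow, smul_pow, one_pow, smul_mul_assoc, smul_mul_assoc,
    one_mul, one_mul]

/-- the main inequality. -/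
theorem main_ineq (D : ℕ) (hcard : Fintype.card L = GD.q K ^ D) (h3 : 3 ∣ D) (hD : 0 < D)
    (hord : orderOf s = GD.q K ^ D - 1) (W R P : ℕ → Lam K) (g : ℕ)
    (hR : ∀ i < g, Supp (R i) 0 1 ∧ R i ≠ 0) (h0 : W 0 = PI ^ g)
    (hstep : ∀ i < g, R i * W (i + 1) = P i * W i)
    (hne : W g ≠ PI ^ g) (hS : Supp (W g) 0 (3 * g))
    (h1 : rho j s hs (W g - PI ^ g) = 0) (h2 : rho j s hs (st (W g - PI ^ g)) = 0) :
    12 * D ≤ 2 * g := by
  classical
  set Y : Lam K := W g - PI ^ g with hY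
  have hYne : Y ≠ 0 := sub_ne_zero.2 hne
  set I : AddSubgroup (Lam K) := (Iq_phi j s hs).ker with hI
  set J : AddSubgroup (Lam K) := JJ W g with hJ
  have hq2 : 2 ≤ GD.q K := GD.hq
  have hQ : 1 < GD.q K ^ 3 := Nat.one_lt_pow (by norm_num) (by omega)
  have hfin : Finite (Matrix (Fin 3) (Fin 3) L × Matrix (Fin 3) (Fin 3) L) := inferInstance
  -- index of I
  have hIindex : (GD.q K ^ 3) ^ (6 * D) ≤ I.index := by
    rw [hI, AddSubgroup.index_ker]
    have hf : Finite (Iq_phi j s hs).range := inferInstance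
    let F : (Fin (6 * D) → K) → (Iq_phi j s hs).range :=
      fun c => ⟨Iq_phi j s hs (Iq_win (6 * D) c), ⟨_, rfl⟩⟩
    have hF : Function.Injective F := by
      intro c c' hcc
      have h3 : Iq_phi j s hs (Iq_win (6 * D) c) = Iq_phi j s hs (Iq_win (6 * D) c') :=
        congrArg Subtype.val hcc
      have h4' : Iq_phi j s hs (Iq_win (6 * D) (c - c')) = 0 := by
        rw [← Iq_win_sub, map_sub, h3, sub_self]
      rw [Iq_phi_apply, Prod.mk_eq_zero] at h4'
      have hsupp := Iq_supp_win (6 * D) (c - c')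
      have hz := root_window j s hs D hcard ‹3 ∣ D› hD hord (Iq_win (6 * D) (c - c'))
        (by
          have e : (((6 * D : ℕ) : ℤ) - 1) = (6 * (D : ℤ) - 1) := by push_cast; ring
          rw [e] at hsupp
          exact hsupp) h4'.1 h4'.2
      funext k
      have h5 := Iq_cf_win (6 * D) (c - c') k
      rw [hz, cf_zero] at h5
      have h6 : c k - c' k = 0 := by
        rw [← Pi.sub_apply, ← h5]
      exact sub_eq_zero.1 h6
    have h7 := Nat.card_le_card_of_injective F hF
    rw [Nat.card_eq_fintype_card (α := Fin (6 * D) → K), Fintype.card_fun, Fintype.card_fin,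
      GD.card] at h7
    exact h7
  -- J ⊔ I = ⊤
  have hsup : J ⊔ I = ⊤ := by
    rw [eq_top_iff]
    intro X _
    have hfs : 1 - s ≠ 0 := s_ne_one s D hD h3 hord
    have hfs' : 1 - s⁻¹ ≠ 0 := by
      intro h
      apply hfs
      have h' : s⁻¹ = 1 := (sub_eq_zero.1 h).symm
      have h'' : s = 1 := by rw [← inv_inv s, h', inv_one]
      rw [h'', sub_self]
    set N := Fintype.card L - 1 with hN
    have hN1 : 1 ≤ N := by
      have : 1 < Fintype.card L := Fintype.one_lt_card
      omega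
    have hpow : (1 - s) ^ N = 1 := FiniteField.pow_card_sub_one_eq_one _ hfs
    have hpow' : (1 - s⁻¹) ^ N = 1 := FiniteField.pow_card_sub_one_eq_one _ hfs'
    set Z : Lam K := X * PI ^ (g * (N - 1)) with hZ
    have e1 : Z * PI ^ g = X * PI ^ (g * N) := by
      rw [hZ, mul_assoc, ← pow_add]
      congr 2
      obtain ⟨m, hm⟩ : ∃ m, N = m + 1 := ⟨N - 1, by omega⟩
      rw [hm, Nat.add_sub_cancel]
      ring
    have e2 : Iq_phi j s hs (Z * PI ^ g) = Iq_phi j s hs X := by
      rw [e1, Iq_phi_mul, mul_comm g N, pow_mul, pow_mul, hpow, hpow', one_pow, one_smul, one_smul,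
        Iq_phi_apply]
    have e3 : X - Z * PI ^ g ∈ I := by
      rw [hI, AddMonoidHom.mem_ker, map_sub, e2, sub_self]
    have e4 : Z * PI ^ g ∈ J := by
      apply LI_le_JJ W g 0 (Nat.zero_le _)
      rw [mem_LI]
      exact ⟨Z, by rw [h0]⟩
    have e5 : X = Z * PI ^ g + (X - Z * PI ^ g) := by abel
    rw [e5]
    exact AddSubgroup.add_mem_sup e4 e3
  -- index of J ⊓ I
  have hinf : (J ⊓ I).index = I.index * J.index := by
    rw [← AddSubgroup.relIndex_mul_index (inf_le_left : J ⊓ I ≤ J), AddSubgroup.inf_relIndex_left]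
    have h5 : I.relIndex J = I.index := by
      rw [← AddSubgroup.relIndex_sup_right, hsup, AddSubgroup.relIndex_top_right]
    rw [h5]
  -- index of J
  have hJindex : (GD.q K ^ 3) ^ (2 * g) ≤ J.index := by
    have h5 := index_LI_PI_pow (K := K) g
    have h6 := relIndex_chain W R P g hR hstep
    have h7 := AddSubgroup.relIndex_mul_index (LI_le_JJ W g 0 (Nat.zero_le _))
    rw [h0] at h7
    rw [h0] at h6
    rw [← h7] at h5
    have h8 : (GD.q K ^ 3) ^ g * (GD.q K ^ 3) ^ (2 * g) ≤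
        (GD.q K ^ 3) ^ g * J.index := by
      rw [← pow_add, show g + 2 * g = 3 * g by ring]
      exact h5.trans (Nat.mul_le_mul_right _ h6.2)
    exact Nat.le_of_mul_le_mul_left h8 (by positivity)
  -- LI Y
  have hSY : Supp Y 0 (3 * g) := supp_sub hS (supp_PI_pow g)
  have hLI := index_LI_le Y 0 (3 * g) (by omega) hSY hYne
  have hle : LI Y ≤ J ⊓ I := by
    intro X hX
    rw [mem_LI] at hX
    obtain ⟨Z, rfl⟩ := hX
    refine AddSubgroup.mem_inf.2 ⟨?_, ?_⟩
    · rw [hY, mul_sub]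
      refine J.sub_mem ?_ ?_
      · exact LI_le_JJ W g g le_rfl (mem_LI.2 ⟨Z, rfl⟩)
      · exact LI_le_JJ W g 0 (Nat.zero_le _) (mem_LI.2 ⟨Z, by rw [h0]⟩)
    · rw [hI, AddMonoidHom.mem_ker, Iq_phi_apply, st_mul, map_mul, map_mul, h1, h2, mul_zero,
        zero_mul]
      rfl
  have h9 : (J ⊓ I).index ≤ (LI Y).index :=
    Nat.le_of_dvd (Nat.pos_of_ne_zero hLI.1) (AddSubgroup.index_dvd_of_le hle)
  have h10 : (GD.q K ^ 3) ^ (6 * D + 2 * g) ≤ (GD.q K ^ 3) ^ (3 * g) := by
    rw [pow_add]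
    calc (GD.q K ^ 3) ^ (6 * D) * (GD.q K ^ 3) ^ (2 * g) ≤ I.index * J.index :=
          Nat.mul_le_mul hIindex hJindex
      _ = (J ⊓ I).index := hinf.symm
      _ ≤ (LI Y).index := h9
      _ ≤ _ := hLI.2
      _ = (GD.q K ^ 3) ^ (3 * g) := by
          have e : ((3 * (g : ℤ)) - 0).toNat = 3 * g := by omega
          rw [e]
  have h11 := (Nat.pow_le_pow_iff_right hQ).1 h10
  omega
end

end GV3
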