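import Pool.Agent.H258R2.GV.Gr
import Pool.Agent.H258R2.GV.Cd
import Pool.Agent.H258R2.GV.Fl
import Pool.Agent.H258R2.GV.GL

namespace GV3

theorem Mn_degree {V W : Type} [Fintype V] [Fintype W] {G : SimpleGraph V} {G' : SimpleGraph W}
    [DecidableRel G.Adj] [DecidableRel G'.Adj] (e : G ≃g G') (v : V) :
    G'.degree (e v) = G.degree v := by
  rw [← SimpleGraph.card_neighborSet_eq_degree, ← SimpleGraph.card_neighborSet_eq_degree]
  exact (Fintype.card_congr (e.mapNeighborSet v)).symm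

theorem Mn_le_degree {V : Type} [Fintype V] (G : SimpleGraph V) [DecidableRel G.Adj] (v : V)
    {α : Type} (F : Finset α) (f : F → V) (hf : Function.Injective f)
    (h : ∀ a, G.Adj v (f a)) : F.card ≤ G.degree v := by
  classical
  rw [← G.card_neighborFinset_eq_degree, ← Finset.card_attach]
  refine Finset.card_le_card_of_injOn f (fun a _ => ?_) (fun a _ b _ hab => hf hab)
  simpa using h a

theorem Mn_graph {K : Type} [Field K] [Fintype K] [GD K] {L : Type} [Field L] [Fintype L]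
    (j : K →+* L) (s : L) (hs : s ≠ 0) (D : ℕ) (hL : Fintype.card L = GD.q K ^ D) (h3 : 3 ∣ D)
    (hD : 0 < D) (hord : orderOf s = GD.q K ^ D - 1) (hs1 : 1 - s ≠ 0) :
    ∃ (V : Type) (_ : Fintype V) (G : SimpleGraph V) (_ : DecidableRel G.Adj),
      Nonempty V ∧ (∀ v, GD.q K + 1 ≤ G.degree v) ∧ ((12 * D : ℕ) : ℕ∞) ≤ G.egirth ∧
      Fintype.card V ≤ 4 * GD.q K ^ (8 * D) := by
  classical
  have i0 : Finite (V0 L) :=
    inferInstanceAs (Finite {A : Matrix (Fin 3) (Fin 3) L // A.det = 1})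
  have i1 : Finite (V1 s) :=
    inferInstanceAs (Finite {A : Matrix (Fin 3) (Fin 3) L // A.det = 1 - s})
  let f0 : Fintype (V0 L) := Fintype.ofFinite _
  let f1 : Fintype (V1 s) := Fintype.ofFinite _
  set G : SimpleGraph (V0 L ⊕ V1 s) := SimpleGraph.fromRel (fun x y : V0 L ⊕ V1 s =>
    ∃ a b, x = Sum.inl a ∧ y = Sum.inr b ∧ Ed j s hs a b) with hG
  have hadj : ∀ (A : V0 L) (B : V1 s), Ed j s hs A B → G.Adj (Sum.inl A) (Sum.inr B) := by
    intro A B h
    rw [hG, SimpleGraph.fromRel_adj]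
    exact ⟨by simp, Or.inl ⟨A, B, rfl, rfl, h⟩⟩
  let dec : DecidableRel G.Adj := Classical.decRel _
  refine ⟨V0 L ⊕ V1 s, inferInstance, G, dec, ⟨Sum.inl ⟨1, Matrix.det_one⟩⟩, ?_, ?_, ?_⟩
  · rintro (A | B)
    · obtain ⟨F, hF, φ, hφ, hinj⟩ := deg_even j s hs A
      refine hF.trans ?_
      exact Mn_le_degree G (Sum.inl A) F (fun a => Sum.inr (φ a))
        (Sum.inr_injective.comp hinj) (fun a => hadj _ _ (hφ a))
    · obtain ⟨F, hF, φ, hφ, hinj⟩ := deg_odd j s hs hs1 B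
      refine hF.trans ?_
      exact Mn_le_degree G (Sum.inr B) F (fun a => Sum.inl (φ a))
        (Sum.inl_injective.comp hinj) (fun a => (hadj _ _ (hφ a)).symm)
  · exact girth_of_closed_walks (Ed j s hs) (12 * D) (fun g a b hg h1 h2 h4 h5 h6 =>
      closed_walk j s hs D hL h3 hD hord g hg a b h1 h2 h4 h5 h6)
  · have c0 : Fintype.card (V0 L) ≤ 2 * Fintype.card L ^ 8 := by
      rw [← Nat.card_eq_fintype_card]
      exact card_det 1 one_ne_zero
    have c1 : Fintype.card (V1 s) ≤ 2 * Fintype.card L ^ 8 := by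
      rw [← Nat.card_eq_fintype_card]
      exact card_det (1 - s) hs1
    rw [Fintype.card_sum]
    have e : GD.q K ^ (8 * D) = Fintype.card L ^ 8 := by
      rw [hL, ← pow_mul, mul_comm]
    rw [e]
    omega

/-- `(q+1)`-regular graphs of girth at least `12 D` with at most `4 q ^ (8 D)` vertices. -/
theorem exists_graph (q : ℕ) (hq : IsPrimePow q) (D : ℕ) (h3 : 3 ∣ D) (hD : 0 < D) :
    ∃ (n : ℕ) (G : SimpleGraph (Fin n)) (_ : DecidableRel G.Adj), 0 < n ∧
      (∀ v, q + 1 ≤ G.degree v) ∧ ((12 * D : ℕ) : ℕ∞) ≤ G.egirth ∧ n ≤ 4 * q ^ (8 * D) := by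
  classical
  obtain ⟨K, _, _, _, L, _, _, j, s, hKq, hs, hL, hord⟩ := exists_data q hq D h3 hD
  subst hKq
  have hs1 : 1 - s ≠ 0 := by
    intro h
    have h1 : s = 1 := (sub_eq_zero.1 h).symm
    rw [h1, orderOf_one] at hord
    have h2 : 2 ≤ GD.q K := hq.two_le
    have h4 : 2 ≤ D := by
      obtain ⟨c, rfl⟩ := h3
      omega
    have h5 : 2 ^ 2 ≤ GD.q K ^ D :=
      (Nat.pow_le_pow_left h2 2).trans (Nat.pow_le_pow_right (by omega) h4)
    omega
  obtain ⟨V, _, G, _, hne, hdeg, hg, hc⟩ := Mn_graph j s hs D hL h3 hD hord hs1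
  refine ⟨Fintype.card V, G.overFin rfl, inferInstance, Fintype.card_pos, ?_, ?_, hc⟩
  · intro v
    have h1 := Mn_degree (G.overFinIso (n := Fintype.card V) rfl)
      ((G.overFinIso (n := Fintype.card V) rfl).symm v)
    rw [RelIso.apply_symm_apply] at h1
    have h2 := hdeg ((G.overFinIso (n := Fintype.card V) rfl).symm v)
    rw [← h1] at h2
    convert! h2 using 1
  · rw [← (G.overFinIso (n := Fintype.card V) rfl).egirth_eq]
    exact hg

end GV3
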